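import Pool.Agent.H25.KP.Near

/-!
# Monotonicity inequality: the range `(φ, π)`
-/

namespace Pool.Agent.H25.KP

open Finset Real Pool.Agent.H85.KP

/-- derivative of `2D + 4κ ST/(S²+T²)` -/
lemma hasDerivAt_main {D κ S T : ℝ → ℝ} {D' κ' S' T' t : ℝ} (hD : HasDerivAt D D' t)
    (hκ : HasDerivAt κ κ' t) (hS : HasDerivAt S S' t) (hT : HasDerivAt T T' t)
    (hq : S t ^ 2 + T t ^ 2 ≠ 0) :
    HasDerivAt (fun t => 2 * D t + 4 * κ t * (S t * T t / (S t ^ 2 + T t ^ 2)))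
      (2 * D' + 4 * (κ' * (S t * T t / (S t ^ 2 + T t ^ 2)) + κ t * ((T t ^ 2 - S t ^ 2) *
        (S' * T t - S t * T') / (S t ^ 2 + T t ^ 2) ^ 2))) t := by
  have hq' : HasDerivAt (fun t => S t ^ 2 + T t ^ 2) (2 * S t * S' + 2 * T t * T') t := by
    refine ((hS.pow 2).add (hT.pow 2)).congr_deriv ?_
    norm_num
  have h1 := (hD.const_mul 2).add ((hκ.const_mul 4).mul ((hS.mul hT).div hq' hq))
  refine h1.congr_deriv ?_
  simp only [Pi.mul_apply, Pi.div_apply]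
  field_simp
  ring

/-- algebra of the derivative -/
lemma deriv_form {n a x sn e D K S T u : ℝ} (hn : 0 < n) (ha : 0 < a) (he : 0 < e) (hD : 0 < D)
    (hsn : 0 < sn) (hx : x = 1 - e) (hDe : D = e - a) (hs2 : sn ^ 2 = e * (2 - e))
    (hK : K = a / (n * e)) (hu : u = K * sn / D) (hq : S ^ 2 + T ^ 2 ≠ 0) :
    2 * sn + 4 * ((-K) * (S * T / (S ^ 2 + T ^ 2)) + K * sn * ((T ^ 2 - S ^ 2) *
        (n / 2 * (T + 2 * u * S) * T - S * (-(n / 2) * S - 2 * ((-K * D - K * sn * sn) / D ^ 2) * S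
          - 2 * u * (n / 2 * (T + 2 * u * S)))) / (S ^ 2 + T ^ 2) ^ 2)) =
    2 * sn * (1 + a / e * ((T ^ 2 - S ^ 2) / (S ^ 2 + T ^ 2)) -
      2 * K / sn * (S * T / (S ^ 2 + T ^ 2)) +
      4 * (a / e) * u * (S * T / (S ^ 2 + T ^ 2)) * ((T ^ 2 - S ^ 2) / (S ^ 2 + T ^ 2)) -
      4 * (K ^ 2 * (2 + x) / D) * ((T ^ 2 - S ^ 2) / (S ^ 2 + T ^ 2)) *
        (S ^ 2 / (S ^ 2 + T ^ 2))) := by
  have h1 : n * u ^ 2 + (-K * D - K * sn * sn) / D ^ 2 = -(K / D) * (2 + x) := by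
    have e1 : n * K = a / e := by
      rw [hK]
      field_simp
    have e2 : n * u ^ 2 = a / e * K * sn ^ 2 / D ^ 2 := by
      rw [hu, ← e1]
      field_simp
    rw [e2]
    have e3 : (-K * D - K * sn * sn) / D ^ 2 = -(K / D) - K * sn ^ 2 / D ^ 2 := by
      field_simp
    rw [e3, hs2, hx]
    have e4 : a = e - D := by linarith
    rw [e4]
    field_simp
    ring
  have h2 : n / 2 * (T + 2 * u * S) * T - S * (-(n / 2) * S - 2 * ((-K * D - K * sn * sn) / D ^ 2)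
      * S - 2 * u * (n / 2 * (T + 2 * u * S))) =
      n / 2 * (S ^ 2 + T ^ 2) + 2 * n * u * (S * T) - 2 * ((K / D) * (2 + x)) * S ^ 2 := by
    linear_combination 2 * S ^ 2 * h1
  rw [h2]
  have e1 : a / e = n * K := by
    rw [hK]
    field_simp
  rw [e1]
  set q := S ^ 2 + T ^ 2 with hqdef
  field_simp
  ring

/-- `F ≥ 0` for large `t`. -/
lemma F_far {l R u θ p1 p2 p3 : ℝ} (hl0 : 0 < l) (hl : l ≤ 0.385) (hu0 : 0 ≤ u) (hu : u ≤ 0.1)
    (hθ0 : 0 ≤ θ) (hθ : θ ≤ 0.02) (hp3 : 0 ≤ p3) (hp3' : p3 ≤ 1) (hp2 : p2 = 1 - 2 * p3)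
    (hp1 : p1 ^ 2 = p3 * (1 - p3)) (hR : R ≤ l / (1 - 2 * u)) :
    0 ≤ 1 + l * p2 - R + 4 * l * u * p1 * p2 - 4 * θ * p2 * p3 := by
  have h1 : l / (1 - 2 * u) ≤ 1.25 * l := by
    rw [div_le_iff₀ (by linarith)]
    nlinarith
  have h2 : |p1 * p2| ≤ 1 / 4 := by
    apply abs_le_of_sq_le_sq _ (by norm_num)
    rw [mul_pow, hp1, hp2]
    nlinarith [sq_nonneg (p3 * (1 - p3) - 1 / 8)]
  have h3 : p2 * p3 ≤ 1 / 8 := by
    rw [hp2]
    nlinarith [sq_nonneg (p3 - 1 / 4)]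
  have h4 := (abs_le.1 h2).1
  have h5 : -(l * u) ≤ 4 * l * u * p1 * p2 := by
    have : 0 ≤ l * u := by positivity
    nlinarith
  have h6 : 4 * θ * p2 * p3 ≤ θ / 2 := by nlinarith
  have h7 : -l ≤ l * p2 := by nlinarith
  nlinarith

/-- `F ≥ 0` when `y < -1`. -/
lemma F_mid1 {l R u θ p1 p2 p3 : ℝ} (hl0 : 0 < l) (hu0 : 0 ≤ u) (hθ0 : 0 ≤ θ)
    (h : l * u + θ / 2 ≤ 1) (hp2 : p2 = 1 - 2 * p3) (hp20 : 0 ≤ p2)
    (hp1 : p1 ^ 2 = p3 * (1 - p3)) (hR : R ≤ 0) :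
    0 ≤ 1 + l * p2 - R + 4 * l * u * p1 * p2 - 4 * θ * p2 * p3 := by
  have h2 : |p1 * p2| ≤ 1 / 4 := by
    apply abs_le_of_sq_le_sq _ (by norm_num)
    rw [mul_pow, hp1, hp2]
    nlinarith [sq_nonneg (p3 * (1 - p3) - 1 / 8)]
  have h3 : p2 * p3 ≤ 1 / 8 := by
    rw [hp2]
    nlinarith [sq_nonneg (p3 - 1 / 4)]
  have h4 := (abs_le.1 h2).1
  have h5 : -(l * u) ≤ 4 * l * u * p1 * p2 := by
    have : 0 ≤ l * u := by positivity
    nlinarith
  have h6 : 4 * θ * p2 * p3 ≤ θ / 2 := by nlinarith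
  have h7 : 0 ≤ l * p2 := by positivity
  linarith

/-- `F ≥ 0` when `|y| ≤ 1`, `λ ≤ 5/6`. -/
lemma F_mid2 {l ν p1 p2 : ℝ} (hl0 : 0 < l) (hl : l ≤ 5 / 6) (hν : 2 ≤ ν)
    (hp2 : -1 ≤ p2) (hp2' : p2 ≤ 0) (hp1 : 4 * p1 ^ 2 = (1 + p2) * (1 - p2)) :
    0 ≤ 1 + l * p2 - 2 * l / ν * p1 := by
  have h1 : 2 * p1 / ν ≤ (1 + p2) + (1 - p2) / (4 * ν ^ 2) := by
    have h2 : (1 + p2) + (1 - p2) / (4 * ν ^ 2) - 2 * p1 / ν =
        (4 * ν ^ 2 * (1 + p2) + (1 - p2) - 8 * p1 * ν) / (4 * ν ^ 2) := by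
      field_simp
      ring
    have h3 : 0 ≤ 4 * ν ^ 2 * (1 + p2) + (1 - p2) - 8 * p1 * ν := by
      rcases eq_or_lt_of_le hp2 with h | h
      · have : p1 = 0 := by
          have : p1 ^ 2 = 0 := by nlinarith
          exact pow_eq_zero_iff (two_ne_zero) |>.1 this
        rw [this, ← h]
        norm_num
      · have h4 : 0 < 1 + p2 := by linarith
        have h5 : (1 - p2) = 4 * p1 ^ 2 / (1 + p2) := by
          rw [hp1]
          field_simp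
        have h6 : 4 * ν ^ 2 * (1 + p2) + 4 * p1 ^ 2 / (1 + p2) - 8 * p1 * ν =
            4 * (ν * (1 + p2) - p1) ^ 2 / (1 + p2) := by
          field_simp
          ring
        rw [h5, h6]
        positivity
    have h4 : 0 ≤ (4 * ν ^ 2 * (1 + p2) + (1 - p2) - 8 * p1 * ν) / (4 * ν ^ 2) := by positivity
    linarith
  have h2 : (1 - p2) / (4 * ν ^ 2) ≤ 1 / 8 := by
    rw [div_le_iff₀ (by positivity)]
    nlinarith
  have h3 : 2 * l / ν * p1 = l * (2 * p1 / ν) := by ring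
  rw [h3]
  nlinarith

/-- `|sin (nt)| ≤ n |sin t|`. -/
lemma abs_sin_nat_mul (n : ℕ) (t : ℝ) : |sin (n * t)| ≤ n * |sin t| := by
  induction n with
  | zero => simp
  | succ k ih =>
    have h : ((k + 1 : ℕ) : ℝ) * t = k * t + t := by push_cast; ring
    rw [h, sin_add]
    calc |sin (k * t) * cos t + cos (k * t) * sin t|
        ≤ |sin (k * t) * cos t| + |cos (k * t) * sin t| := abs_add_le _ _
      _ ≤ |sin (k * t)| * 1 + 1 * |sin t| := by
          rw [abs_mul, abs_mul]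
          gcongr
          · exact abs_cos_le_one _
          · exact abs_cos_le_one _
      _ ≤ ((k + 1 : ℕ) : ℝ) * |sin t| := by
          push_cast
          linarith

lemma kap_eq {n : ℕ} {t : ℝ} (ht0 : 0 < t) (htpi : t < π) :
    kap n t = (1 - cos (2 * π / n)) / n * (sin t / (1 - cos t)) := by
  have hc2 : 0 < cos (t / 2) := cos_pos_of_mem_Ioo ⟨by linarith [pi_pos], by linarith⟩
  have hs2 : 0 < sin (t / 2) := sin_pos_of_pos_of_lt_pi (by linarith) (by linarith)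
  have hsin : sin t = 2 * sin (t / 2) * cos (t / 2) := by
    rw [← sin_two_mul]
    congr 1
    ring
  have hcos : 1 - cos t = 2 * sin (t / 2) ^ 2 := by
    have : cos t = cos (2 * (t / 2)) := by congr 1; ring
    rw [this, cos_two_mul, cos_sq']
    ring
  unfold kap
  rw [hsin, hcos]
  congr 1
  field_simp

lemma one_sub_cos_pos {t : ℝ} (ht0 : 0 < t) (htpi : t < π) : 0 < 1 - cos t := by
  have h1 : cos t < cos 0 := cos_lt_cos_of_nonneg_of_le_pi le_rfl htpi.le ht0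
  rw [cos_zero] at h1
  linarith

lemma hasDerivAt_kap (b : ℝ) {t : ℝ} (he : 1 - cos t ≠ 0) :
    HasDerivAt (fun t => b * (sin t / (1 - cos t))) (-(b / (1 - cos t))) t := by
  have h1 := ((hasDerivAt_sin t).div ((hasDerivAt_cos t).const_sub 1) he).const_mul b
  refine h1.congr_deriv ?_
  have h2 := sin_sq_add_cos_sq t
  have h3 : cos t * (1 - cos t) - sin t * -(-sin t) = -(1 - cos t) := by
    linear_combination -h2
  rw [h3]
  field_simp

end Pool.Agent.H25.KP
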