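import Pool.Agent.H25.KP.W

/-!
# Monotonicity inequality: the range `(0, φ)`
-/

namespace Pool.Agent.H25.KP

open Finset Real Pool.Agent.H85.KP

section

variable {n : ℕ} (hn : 5 ≤ n)

include hn

lemma A_bounds : 17 < (n : ℝ) ^ 2 * (1 - cos (2 * π / n)) ∧
    (n : ℝ) ^ 2 * (1 - cos (2 * π / n)) < 19.75 := by
  have hn0 := npos hn
  have h5 : (5 : ℝ) ≤ n := by exact_mod_cast hn
  have hp1 := pi_gt_d4
  have hp2 := pi_lt_d4
  have hx0 : 0 < π / n := by positivity
  have e1 : 2 * π / n = 2 * (π / n) := by ring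
  have e2 : (n : ℝ) ^ 2 * (1 - cos (2 * π / n)) = 2 * (n * sin (π / n)) ^ 2 := by
    rw [e1, cos_two_mul, cos_sq']
    ring
  rw [e2]
  have h1 : sin (π / n) < π / n := sin_lt hx0
  have h2 : π / n - (π / n) ^ 3 / 6 < sin (π / n) := sin_gt_sub_cube hx0
  have h3 : n * sin (π / n) < π := by
    calc n * sin (π / n) < n * (π / n) := by gcongr
      _ = π := by field_simp
  have hx1 : π / n ≤ 0.62832 := by
    rw [div_le_iff₀ hn0]
    nlinarith
  have h4 : 2.932 < n * sin (π / n) := by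
    calc (2.932 : ℝ) < π * (1 - (π / n) ^ 2 / 6) := by
          have : (π / n) ^ 2 ≤ 0.62832 ^ 2 := by gcongr
          nlinarith
      _ = n * (π / n - (π / n) ^ 3 / 6) := by
          field_simp
      _ < n * sin (π / n) := by gcongr
  constructor
  · nlinarith
  · nlinarith

lemma sin_half_ne {t : ℝ} (ht0 : 0 < t) (ht2 : t < 2 * (2 * π / n)) (hne : t ≠ 2 * π / n) :
    sin (n * t / 2) ≠ 0 := by
  have hn0 := npos hn
  have hpi := pi_pos
  intro h0
  rw [sin_eq_zero_iff] at h0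
  obtain ⟨k, hk⟩ := h0
  have h1 : 0 < (k : ℝ) * π := by
    rw [hk]
    positivity
  have h2 : (k : ℝ) * π < 2 * π := by
    rw [hk]
    have : n * t < n * (2 * (2 * π / n)) := by gcongr
    have e : n * (2 * (2 * π / n)) = 4 * π := by
      field_simp
      norm_num
    linarith
  have h3 : (0 : ℝ) < k := by
    by_contra hc
    push Not at hc
    nlinarith
  have h4 : (k : ℝ) < 2 := by
    by_contra hc
    push Not at hc
    nlinarith
  have h5 : k = 1 := by
    have : 0 < k := by exact_mod_cast h3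
    have : k < 2 := by exact_mod_cast h4
    omega
  apply hne
  rw [h5] at hk
  push_cast at hk
  field_simp at hk ⊢
  linarith

lemma DD_ne {t : ℝ} (ht0 : 0 < t) (htpi : t < π) (hne : t ≠ 2 * π / n) : DD n t ≠ 0 := by
  have hn0 := npos hn
  have hpi := pi_pos
  have h5 : (5 : ℝ) ≤ n := by exact_mod_cast hn
  unfold DD
  intro h
  apply hne
  have h1 : cos t = cos (2 * π / n) := by linarith
  refine (injOn_cos ⟨ht0.le, htpi.le⟩ ⟨by positivity, ?_⟩ h1)
  rw [div_le_iff₀ hn0]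
  nlinarith

/-- `n tan(t/2) cot(nt/2) = 3 - w(e) + 2a/D` on `(0, 2φ)`. -/
lemma key {t : ℝ} (ht0 : 0 < t) (htpi : t < π) (ht2 : t < 2 * (2 * π / n))
    (hne : t ≠ 2 * π / n) :
    n * (sin (t / 2) / cos (t / 2)) * (cos (n * t / 2) / sin (n * t / 2)) =
      3 - wf n (1 - cos t) + 2 * (1 - cos (2 * π / n)) / DD n t := by
  have hn0 := npos hn
  have hpi := pi_pos
  have hs := sin_half_ne hn ht0 ht2 hne
  obtain ⟨hcne, hsum⟩ := sum_cot (by omega : n ≠ 0) hs
  have hc2 : 0 < cos (t / 2) := cos_pos_of_mem_Ioo ⟨by linarith, by linarith⟩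
  have hs2 : 0 < sin (t / 2) := sin_pos_of_pos_of_lt_pi (by linarith) (by linarith)
  have hsin : sin t = 2 * sin (t / 2) * cos (t / 2) := by
    rw [← sin_two_mul]
    congr 1
    ring
  have hcos : 1 - cos t = 2 * sin (t / 2) ^ 2 := by
    have : cos t = cos (2 * (t / 2)) := by congr 1; ring
    rw [this, cos_two_mul, cos_sq']
    ring
  have hD := DD_ne hn ht0 htpi hne
  have e1 : n * (sin (t / 2) / cos (t / 2)) * (cos (n * t / 2) / sin (n * t / 2)) =
      (sin (t / 2) / cos (t / 2)) * ∑ j ∈ range n, sin t / (cos (j * (2 * π / n)) - cos t) := by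
    rw [hsum]
    ring
  rw [e1, mul_sum]
  have e2 : ∀ j ∈ range n, (sin (t / 2) / cos (t / 2)) * (sin t / (cos (j * (2 * π / n)) - cos t))
      = (1 - cos t) / ((1 - cos t) - ej n j) := by
    intro j _
    have h1 : cos (j * (2 * π / n)) - cos t ≠ 0 := sub_ne_zero.2 (hcne j)
    have h2 : (1 - cos t) - ej n j = cos (j * (2 * π / n)) - cos t := by
      unfold ej
      ring
    rw [h2, hcos, hsin]
    field_simp
  rw [sum_congr rfl e2]
  obtain ⟨k, rfl⟩ : ∃ k, n = k + 5 := ⟨n - 5, by omega⟩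
  have e3 : ∀ f : ℕ → ℝ, ∑ j ∈ range (k + 5), f j =
      f 0 + f 1 + ∑ j ∈ Ico 2 (k + 5 - 1), f j + f (k + 4) := by
    intro f
    rw [sum_range_succ]
    congr 1
    have : k + 5 - 1 = k + 4 := by omega
    rw [this, range_eq_Ico, ← sum_Ico_consecutive f (Nat.zero_le 2) (by omega : 2 ≤ k + 4)]
    congr 1
    rw [← range_eq_Ico, sum_range_succ, sum_range_one]
  rw [e3]
  have c0 : ej (k + 5) 0 = 0 := by
    unfold ej
    simp
  have c1 : ej (k + 5) 1 = 1 - cos (2 * π / (k + 5 : ℕ)) := by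
    unfold ej
    simp
  have c2 : ej (k + 5) (k + 4) = 1 - cos (2 * π / (k + 5 : ℕ)) := by
    unfold ej
    have : ((k + 4 : ℕ) : ℝ) * (2 * π / (k + 5 : ℕ)) = 2 * π - 2 * π / (k + 5 : ℕ) := by
      push_cast
      have h : (k : ℝ) + 5 ≠ 0 := by positivity
      field_simp
      ring
    rw [this, cos_two_pi_sub]
  rw [c0, c1, c2]
  have he0 : 1 - cos t ≠ 0 := by
    rw [hcos]
    positivity
  have e4 : ∑ j ∈ Ico 2 (k + 5 - 1), (1 - cos t) / (1 - cos t - ej (k + 5) j) =
      - wf (k + 5) (1 - cos t) := by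
    unfold wf
    rw [← sum_neg_distrib]
    refine sum_congr rfl fun j _ => ?_
    rw [← div_neg]
    congr 1
    ring
  rw [e4]
  have hD' : 1 - cos t - (1 - cos (2 * π / (k + 5 : ℕ))) = DD (k + 5) t := by
    unfold DD
    ring
  rw [hD']
  have h6 : (1 - cos t) = DD (k + 5) t + (1 - cos (2 * π / (k + 5 : ℕ))) := by
    unfold DD
    ring
  have h7 : (1 - cos t) / (1 - cos t - 0) = 1 := by
    rw [sub_zero, div_self he0]
  rw [h7]
  have h8 : (1 - cos t) / DD (k + 5) t = 1 + (1 - cos (2 * π / (k + 5 : ℕ))) / DD (k + 5) t := by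
    rw [h6]
    field_simp
  rw [h8]
  ring

omit hn in
/-- `RR` in terms of `S = sin (nt/2)`, `T = cos (nt/2) - 2uS`, `u = κ/D`. -/
lemma RR_eq {t : ℝ} (hD : DD n t ≠ 0) :
    RR n t = 2 * DD n t + 4 * kap n t * (sin (n * t / 2) *
      (cos (n * t / 2) - 2 * (kap n t / DD n t) * sin (n * t / 2)) /
      (sin (n * t / 2) ^ 2 +
        (cos (n * t / 2) - 2 * (kap n t / DD n t) * sin (n * t / 2)) ^ 2)) := by
  set S := sin (n * t / 2) with hS
  set C := cos (n * t / 2) with hC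
  set D := DD n t with hDdef
  set κ := kap n t with hκ
  have h1 : S ^ 2 + C ^ 2 = 1 := sin_sq_add_cos_sq _
  have h2 : sin (n * t) = 2 * S * C := by
    rw [hS, hC, ← sin_two_mul]
    congr 1
    ring
  have h3 : 1 - cos (n * t) = 2 * S ^ 2 := by
    have : cos (n * t) = cos (2 * (n * t / 2)) := by congr 1; ring
    rw [this, cos_two_mul, ← hC]
    linear_combination (-2) * h1
  unfold RR
  rw [h2, h3, ← hDdef, ← hκ]
  have hq0 : S ^ 2 + (C - 2 * (κ / D) * S) ^ 2 ≠ 0 := by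
    intro h0
    have h4 : S = 0 := by nlinarith [sq_nonneg S, sq_nonneg (C - 2 * (κ / D) * S)]
    rw [h4] at h0 h1
    simp only [mul_zero, sub_zero] at h0
    nlinarith
  have hq : D ^ 2 - 2 * κ * D * (2 * S * C) + 2 * κ ^ 2 * (2 * S ^ 2) =
      D ^ 2 * (S ^ 2 + (C - 2 * (κ / D) * S) ^ 2) := by
    field_simp
    linear_combination (-D ^ 2) * h1
  rw [hq, div_eq_iff (mul_ne_zero (pow_ne_zero 2 hD) hq0)]
  have h5 : (2 * D + 4 * κ * (S * (C - 2 * (κ / D) * S) / (S ^ 2 + (C - 2 * (κ / D) * S) ^ 2))) *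
      (D ^ 2 * (S ^ 2 + (C - 2 * (κ / D) * S) ^ 2)) =
      2 * D * (D ^ 2 * (S ^ 2 + (C - 2 * (κ / D) * S) ^ 2)) +
        4 * κ * (S * (C - 2 * (κ / D) * S)) * D ^ 2 := by
    have h6 := div_mul_cancel₀ (S * (C - 2 * (κ / D) * S)) hq0
    linear_combination (4 * κ * D ^ 2) * h6
  rw [h5]
  field_simp
  linear_combination (-2 * D ^ 2) * h1

/-- `RR` on `(0, 2φ)` as a rational function of `e = 1 - cos t` and `w`. -/
lemma RR_eq' {t : ℝ} (ht0 : 0 < t) (htpi : t < π) (ht2 : t < 2 * (2 * π / n))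
    (hne : t ≠ 2 * π / n) :
    RR n t = 2 * DD n t + 4 * (1 - cos (2 * π / n)) * (3 - wf n (1 - cos t)) /
      ((n : ℝ) ^ 2 * (1 - cos t) / (2 - (1 - cos t)) + (3 - wf n (1 - cos t)) ^ 2) := by
  have hn0 := npos hn
  have hD := DD_ne hn ht0 htpi hne
  rw [RR_eq hD]
  have hk := key hn ht0 htpi ht2 hne
  have hs := sin_half_ne hn ht0 ht2 hne
  have hc2 : 0 < cos (t / 2) := cos_pos_of_mem_Ioo ⟨by linarith [pi_pos], by linarith⟩
  have hs2 : 0 < sin (t / 2) := sin_pos_of_pos_of_lt_pi (by linarith) (by linarith)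
  set S := sin (n * t / 2) with hS
  set C := cos (n * t / 2) with hC
  set m := 3 - wf n (1 - cos t) with hm
  set a := 1 - cos (2 * π / n) with ha
  set g := n * (sin (t / 2) / cos (t / 2)) with hg
  have hg0 : 0 < g := by positivity
  have hκ : kap n t = a / g := by
    unfold kap
    rw [hg, ha]
    field_simp
  have hG : (n : ℝ) ^ 2 * (1 - cos t) / (2 - (1 - cos t)) = g ^ 2 := by
    have h1 : 1 - cos t = 2 * sin (t / 2) ^ 2 := by
      have : cos t = cos (2 * (t / 2)) := by congr 1; ring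
      rw [this, cos_two_mul, cos_sq']
      ring
    have h2 : 2 - (1 - cos t) = 2 * cos (t / 2) ^ 2 := by
      rw [h1, cos_sq']
      ring
    rw [h2, h1, hg]
    field_simp
  rw [hG]
  -- T/S = m/g
  have hT : C - 2 * (kap n t / DD n t) * S = S * (m / g) := by
    rw [hκ]
    have h1 : C = S * ((m + 2 * a / DD n t) / g) := by
      rw [← hk]
      field_simp
    rw [h1]
    field_simp
    ring
  rw [hT, hκ]
  congr 1
  have h9 : S ^ 2 + (S * (m / g)) ^ 2 = S ^ 2 * (g ^ 2 + m ^ 2) / g ^ 2 := by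
    field_simp
  rw [h9]
  have h10 : g ^ 2 + m ^ 2 ≠ 0 := by positivity
  field_simp

end

/-- the function `Ψ` -/
noncomputable def Psi (n : ℕ) (e : ℝ) : ℝ := 2 * (e - (1 - cos (2 * π / n))) +
  4 * (1 - cos (2 * π / n)) * (3 - wf n e) / ((n : ℝ) ^ 2 * e / (2 - e) + (3 - wf n e) ^ 2)

/-- final inequality on `(0, φ)` -/
lemma final_near {a e N m w' : ℝ} (ha0 : 0 < a) (ha : a ≤ 7 / 10) (hA1 : 17 < N * a)
    (hA2 : N * a < 19.75) (he0 : 0 < e) (hea : e < a) (hm1 : 3 - 3 / 2 * (e / a) ≤ m) (hm2 : m ≤ 3)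
    (hw0 : 0 ≤ w') (hw : a * w' ≤ 2) :
    2 * a * (w' * (N * e / (2 - e) - m ^ 2) + m * (2 * N / (2 - e) ^ 2)) ≤
      (N * e / (2 - e) + m ^ 2) ^ 2 := by
  set s := e / a with hs
  set A := N * a with hAdef
  have hs0 : 0 < s := by positivity
  have hs1 : s < 1 := by rw [hs, div_lt_one ha0]; exact hea
  have hes : e = a * s := by rw [hs]; field_simp
  set b := 2 - e with hb
  have hb1 : 2 - 7 / 10 * s ≤ b := by
    rw [hb, hes]
    nlinarith
  have hb2 : b < 2 := by rw [hb]; linarith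
  have hb0 : 0 < b := by nlinarith
  have hN : N * e = A * s := by rw [hes, hAdef]; ring
  set P := A * s with hP
  set Q := b * m ^ 2 with hQ
  have hm0 : 0 < m := by nlinarith
  have hQ1 : 18 - 24.3 * s + 9.225 * s ^ 2 ≤ Q := by
    have h1 : (3 - 3 / 2 * s) ^ 2 ≤ m ^ 2 := by
      apply pow_le_pow_left₀ _ hm1
      nlinarith
    have h2 : (2 - 7 / 10 * s) * (3 - 3 / 2 * s) ^ 2 ≤ Q := by
      rw [hQ]
      apply mul_le_mul hb1 h1 (by positivity) hb0.le
    refine le_trans ?_ h2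
    nlinarith [mul_pos hs0 (sub_pos.2 hs1), mul_pos (pow_pos hs0 2) (sub_pos.2 hs1)]
  have hz : 16 < P + Q := by
    have : 16 < A * s + (18 - 24.3 * s + 9.225 * s ^ 2) := by
      nlinarith [sq_nonneg (s - 0.4), mul_pos (sub_pos.2 hA1) hs0]
    linarith
  have hz0 : 16 < A * s + (18 - 24.3 * s + 9.225 * s ^ 2) := by
    nlinarith [sq_nonneg (s - 0.4), mul_pos (sub_pos.2 hA1) hs0]
  have H1 : 12 * A ≤ (P + Q) ^ 2 := by
    have h1 : 12 * A ≤ 34 * (P + Q) - 289 := by
      have : 12 * A ≤ 34 * (A * s + (18 - 24.3 * s + 9.225 * s ^ 2)) - 289 := by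
        nlinarith [sq_nonneg (s - 0.35), mul_pos (sub_pos.2 hA1) hs0,
          mul_pos (sub_pos.2 hA2) hs0]
      linarith
    nlinarith [sq_nonneg (P + Q - 17)]
  have H2 : 12 * A + 8 * (P - Q) ≤ (P + Q) ^ 2 := by
    have h1 : 12 * A + 8 * (P - Q) ≤ 34 * (P + Q) - 289 := by
      have : 12 * A + 8 * (A * s - (18 - 24.3 * s + 9.225 * s ^ 2)) ≤
          34 * (A * s + (18 - 24.3 * s + 9.225 * s ^ 2)) - 289 := by
        nlinarith [sq_nonneg (s - 0.7), mul_pos (sub_pos.2 hA1) hs0,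
          mul_pos (sub_pos.2 hA2) hs0, mul_pos (sub_pos.2 hA1) (sub_pos.2 hs1),
          mul_pos (sub_pos.2 hA2) (sub_pos.2 hs1)]
      linarith
    nlinarith [sq_nonneg (P + Q - 17)]
  have e1 : N * e / b + m ^ 2 = (P + Q) / b := by
    rw [hN, hQ]
    field_simp
  have e2 : N * e / b - m ^ 2 = (P - Q) / b := by
    rw [hN, hQ]
    field_simp
  rw [e1, e2, div_pow, le_div_iff₀ (by positivity)]
  have e3 : 2 * a * (w' * ((P - Q) / b) + m * (2 * N / b ^ 2)) * b ^ 2 =
      2 * (a * w') * b * (P - Q) + 4 * A * m := by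
    rw [hAdef]
    field_simp
    ring
  rw [e3]
  have hA0 : 0 < A := by linarith
  have h4 : 4 * A * m ≤ 12 * A := by nlinarith
  rcases le_total (P - Q) 0 with hPQ | hPQ
  · have h5 : 2 * (a * w') * b * (P - Q) ≤ 0 := by
      apply mul_nonpos_of_nonneg_of_nonpos _ hPQ
      positivity
    linarith
  · have h5 : 2 * (a * w') * b * (P - Q) ≤ 8 * (P - Q) := by
      apply mul_le_mul_of_nonneg_right _ hPQ
      have : 0 ≤ a * w' := by positivity
      nlinarith
    linarith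

section

variable {n : ℕ} (hn : 5 ≤ n)

include hn

lemma Psi_monotone : MonotoneOn (Psi n) (Set.Ioo 0 (1 - cos (2 * π / n))) := by
  have hn0 := npos hn
  have hc1 := cos_ge hn
  have hc2 := cos_lt_one hn
  have hA := A_bounds hn
  have ha2 := a_lt_ej_two hn
  set a := 1 - cos (2 * π / n) with hadef
  have ha0 : 0 < a := by rw [hadef]; linarith
  have ha7 : a ≤ 7 / 10 := by rw [hadef]; linarith
  have hder : ∀ e ∈ Set.Ioo 0 a, HasDerivAt (Psi n)
      (2 + 4 * a * ((-wd n e) * (n ^ 2 * e / (2 - e) + (3 - wf n e) ^ 2) - (3 - wf n e) *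
        (2 * n ^ 2 / (2 - e) ^ 2 + 2 * (3 - wf n e) * (-wd n e))) /
        (n ^ 2 * e / (2 - e) + (3 - wf n e) ^ 2) ^ 2) e := by
    intro e he
    have hb : (2 : ℝ) - e ≠ 0 := by
      have : 0 < 2 - e := by linarith [he.2]
      exact this.ne'
    have hb0 : 0 < 2 - e := by linarith [he.2]
    have hw : HasDerivAt (fun e => 3 - wf n e) (-wd n e) e :=
      ((hasDerivAt_wf hn (by linarith [he.2])).const_sub 3)
    have hG : HasDerivAt (fun e : ℝ => (n : ℝ) ^ 2 * e / (2 - e)) (2 * n ^ 2 / (2 - e) ^ 2) e := by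
      have h1 := ((hasDerivAt_id e).const_mul ((n : ℝ) ^ 2)).div
        ((hasDerivAt_id e).const_sub 2) hb
      refine h1.congr_deriv ?_
      simp only [id]
      congr 1
      ring
    have hden : HasDerivAt (fun e : ℝ => (n : ℝ) ^ 2 * e / (2 - e) + (3 - wf n e) ^ 2)
        (2 * n ^ 2 / (2 - e) ^ 2 + 2 * (3 - wf n e) * (-wd n e)) e := by
      refine (hG.add (hw.pow 2)).congr_deriv ?_
      norm_num
    have hpos : (n : ℝ) ^ 2 * e / (2 - e) + (3 - wf n e) ^ 2 ≠ 0 := by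
      have : 0 < (n : ℝ) ^ 2 * e / (2 - e) := by
        have := he.1
        positivity
      positivity
    have h2 := (((hasDerivAt_id e).sub_const a).const_mul 2).add
      ((hw.const_mul (4 * a)).div hden hpos)
    refine (h2.congr_deriv ?_)
    ring
  apply monotoneOn_of_deriv_nonneg (convex_Ioo 0 a)
  · intro e he
    exact (hder e he).continuousAt.continuousWithinAt
  · intro e he
    rw [interior_Ioo] at he
    exact (hder e he).differentiableAt.differentiableWithinAt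
  · intro e he
    rw [interior_Ioo] at he
    rw [(hder e he).deriv]
    have hb0 : 0 < 2 - e := by linarith [he.2]
    have hwa := wf_a hn
    have hw0 := wf_nonneg hn he.1.le (by linarith [he.2])
    have hw1 := wf_le_of_le hn he.1.le he.2.le
    rw [← hadef] at hwa hw1
    have hwa2 : wf n a ≤ 3 / 2 := by
      rw [hwa, div_le_iff₀ (by linarith)]
      linarith
    have hd0 := wd_nonneg hn e
    have hd1 := wd_le hn he.2.le
    rw [← hadef] at hd1
    have hm1 : 3 - 3 / 2 * (e / a) ≤ 3 - wf n e := by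
      have : 0 ≤ e / a := by
        have := he.1
        positivity
      nlinarith
    have hfin := final_near ha0 ha7 hA.1 hA.2 he.1 he.2 hm1 (by linarith) hd0 hd1
    have hpos : 0 < (n : ℝ) ^ 2 * e / (2 - e) + (3 - wf n e) ^ 2 := by
      have : 0 < (n : ℝ) ^ 2 * e / (2 - e) := by
        have := he.1
        positivity
      positivity
    set G := (n : ℝ) ^ 2 * e / (2 - e) with hG
    set m := 3 - wf n e with hm
    have e1 : 2 + 4 * a * ((-wd n e) * (G + m ^ 2) - m * (2 * n ^ 2 / (2 - e) ^ 2 +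
        2 * m * (-wd n e))) / (G + m ^ 2) ^ 2 =
        2 * ((G + m ^ 2) ^ 2 - 2 * a * (wd n e * (G - m ^ 2) + m * (2 * n ^ 2 / (2 - e) ^ 2))) /
          (G + m ^ 2) ^ 2 := by
      have : (G + m ^ 2) ^ 2 ≠ 0 := by positivity
      rw [eq_div_iff this, add_mul, div_mul_cancel₀ _ this]
      ring
    rw [e1]
    apply div_nonneg _ (by positivity)
    linarith

/-- Monotonicity on `(0, φ)`. -/
lemma monotone_near : MonotoneOn (RR n) (Set.Ioo 0 (2 * π / n)) := by
  have hn0 := npos hn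
  have hpi := pi_pos
  have h5 : (5 : ℝ) ≤ n := by exact_mod_cast hn
  have hφ : 2 * π / n < π := by
    rw [div_lt_iff₀ hn0]
    nlinarith
  have hφ0 : 0 < 2 * π / n := by positivity
  have heq : ∀ t ∈ Set.Ioo 0 (2 * π / n), RR n t = Psi n (1 - cos t) := by
    intro t ht
    rw [RR_eq' hn ht.1 (by linarith [ht.2]) (by linarith [ht.2]) (by linarith [ht.2] : t < 2 * π / n).ne]
    unfold Psi DD
    ring
  have hmem : ∀ t ∈ Set.Ioo 0 (2 * π / n), 1 - cos t ∈ Set.Ioo 0 (1 - cos (2 * π / n)) := by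
    intro t ht
    have h1 : cos t < cos 0 := cos_lt_cos_of_nonneg_of_le_pi le_rfl (by linarith [ht.2]) ht.1
    have h2 : cos (2 * π / n) < cos t := cos_lt_cos_of_nonneg_of_le_pi ht.1.le hφ.le ht.2
    rw [cos_zero] at h1
    constructor <;> linarith
  intro x hx y hy hxy
  rw [heq x hx, heq y hy]
  apply Psi_monotone hn (hmem x hx) (hmem y hy)
  have : cos y ≤ cos x := cos_le_cos_of_nonneg_of_le_pi hx.1.le (by linarith [hy.2]) hxy
  linarith

end

end Pool.Agent.H25.KP
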