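import Pool.Agent.H85.KP.Iface

/-!
# Partial fractions of the cotangent over the `n`-th roots of unity
-/

namespace Pool.Agent.H25.KP

open Finset Complex

lemma sum_inv_one_sub {n : ℕ} (hn : n ≠ 0) {ζ : ℂ} (hζ : IsPrimitiveRoot ζ n) {w : ℂ}
    (hw : w ^ n ≠ 1) : ∑ j ∈ range n, 1 / (1 - ζ ^ j * w) = n / (1 - w ^ n) := by
  have h1 : (1 : ℂ) - w ^ n ≠ 0 := sub_ne_zero.2 (Ne.symm hw)
  have hne : ∀ j, ζ ^ j * w ≠ 1 := by
    intro j h
    apply hw
    have h2 : (ζ ^ j * w) ^ n = 1 := by rw [h, one_pow]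
    rwa [mul_pow, ← pow_mul, mul_comm j n, pow_mul, hζ.pow_eq_one, one_pow, one_mul] at h2
  have h3 : ∀ j ∈ range n, 1 / (1 - ζ ^ j * w) =
      (∑ k ∈ range n, (ζ ^ j * w) ^ k) / (1 - w ^ n) := by
    intro j _
    rw [geom_sum_eq (hne j), mul_pow, ← pow_mul, mul_comm j n, pow_mul, hζ.pow_eq_one, one_pow,
      one_mul]
    have h4 : ζ ^ j * w - 1 ≠ 0 := sub_ne_zero.2 (hne j)
    have h5 : 1 - ζ ^ j * w ≠ 0 := sub_ne_zero.2 (Ne.symm (hne j))
    field_simp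
    ring
  rw [sum_congr rfl h3, ← sum_div]
  congr 1
  rw [sum_comm]
  have h6 : ∀ k ∈ range n, ∑ j ∈ range n, (ζ ^ j * w) ^ k = if k = 0 then (n : ℂ) else 0 := by
    intro k hk
    split_ifs with h0
    · subst h0
      simp
    · have h7 : ∑ j ∈ range n, (ζ ^ j * w) ^ k = w ^ k * ∑ j ∈ range n, (ζ ^ k) ^ j := by
        rw [mul_sum]
        refine sum_congr rfl fun j _ => ?_
        rw [mul_pow, ← pow_mul, ← pow_mul, mul_comm j k]
        ring
      rw [h7]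
      have h8 : ζ ^ k ≠ 1 := hζ.pow_ne_one_of_pos_of_lt h0 (mem_range.1 hk)
      rw [geom_sum_eq h8, ← pow_mul, mul_comm k n, pow_mul, hζ.pow_eq_one, one_pow, sub_self,
        zero_div, mul_zero]
  rw [sum_congr rfl h6, sum_ite_eq' (range n) 0 (fun _ => (n : ℂ)),
    if_pos (mem_range.2 (Nat.pos_of_ne_zero hn))]

/-- Partial fractions: `∑_{j<n} sin t / (cos (jφ) - cos t) = n cot (nt/2)`. -/
lemma sum_cot {n : ℕ} (hn : n ≠ 0) {t : ℝ} (hs : Real.sin (n * t / 2) ≠ 0) :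
    (∀ j : ℕ, Real.cos (j * (2 * Real.pi / n)) ≠ Real.cos t) ∧
    ∑ j ∈ range n, Real.sin t / (Real.cos (j * (2 * Real.pi / n)) - Real.cos t) =
      n * (Real.cos (n * t / 2) / Real.sin (n * t / 2)) := by
  set ζ : ℂ := Complex.exp (2 * Real.pi * I / n) with hζdef
  have hζ : IsPrimitiveRoot ζ n := Complex.isPrimitiveRoot_exp n hn
  set E : ℂ := Complex.exp (t * I) with hE
  set h : ℂ := Complex.exp ((n * t / 2 : ℝ) * I) with hh
  have hE0 : E ≠ 0 := Complex.exp_ne_zero _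
  have hh0 : h ≠ 0 := Complex.exp_ne_zero _
  have hn' : (n : ℂ) ≠ 0 := by exact_mod_cast hn
  have hEn : E ^ n = h ^ 2 := by
    rw [hE, hh, ← Complex.exp_nat_mul, ← Complex.exp_nat_mul]
    congr 1
    push_cast
    ring
  have hEinv : E⁻¹ = Complex.exp (-t * I) := by
    rw [hE, ← Complex.exp_neg]
    congr 1
    ring
  have hhinv : h⁻¹ = Complex.exp (-(n * t / 2 : ℝ) * I) := by
    rw [hh, ← Complex.exp_neg]
    congr 1
    ring
  -- sine and cosine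
  have hsin : ((Real.sin (n * t / 2) : ℝ) : ℂ) = (h⁻¹ - h) * I / 2 := by
    rw [Complex.ofReal_sin, Complex.sin, hhinv, hh]
  have hcos : ((Real.cos (n * t / 2) : ℝ) : ℂ) = (h + h⁻¹) / 2 := by
    rw [Complex.ofReal_cos, Complex.cos, hhinv, hh]
  have hct : ((Real.cos t : ℝ) : ℂ) = (E + E⁻¹) / 2 := by
    rw [Complex.ofReal_cos, Complex.cos, hEinv, hE]
  have hst : ((Real.sin t : ℝ) : ℂ) = (E⁻¹ - E) * I / 2 := by
    rw [Complex.ofReal_sin, Complex.sin, hEinv, hE]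
  have hh2 : h ^ 2 ≠ 1 := by
    intro h2
    apply hs
    have h3 : ((Real.sin (n * t / 2) : ℝ) : ℂ) = 0 := by
      rw [hsin]
      have : h⁻¹ = h := by
        field_simp
        rw [h2]
      rw [this]
      simp
    exact_mod_cast h3
  have hh21 : h ^ 2 - 1 ≠ 0 := sub_ne_zero.2 hh2
  have hw : (E⁻¹) ^ n ≠ 1 := by
    rw [inv_pow, hEn]
    intro h3
    exact hh2 (inv_eq_one.1 h3)
  have hζ' : IsPrimitiveRoot ζ⁻¹ n := hζ.inv
  have hζ0 : ζ ≠ 0 := hζ.ne_zero hn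
  have s1 := sum_inv_one_sub hn hζ hw
  have s2 := sum_inv_one_sub hn hζ' hw
  have hcj : ∀ j : ℕ, ((Real.cos (j * (2 * Real.pi / n)) : ℝ) : ℂ) = (ζ ^ j + (ζ⁻¹) ^ j) / 2 := by
    intro j
    rw [Complex.ofReal_cos, Complex.cos, hζdef, ← Complex.exp_neg, ← Complex.exp_nat_mul,
      ← Complex.exp_nat_mul]
    congr 3
    · push_cast
      ring
    · push_cast
      ring
  have hne : ∀ j, ζ ^ j * E⁻¹ ≠ 1 := by
    intro j h
    apply hw
    have h2 : (ζ ^ j * E⁻¹) ^ n = 1 := by rw [h, one_pow]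
    rwa [mul_pow, ← pow_mul, mul_comm j n, pow_mul, hζ.pow_eq_one, one_pow, one_mul] at h2
  have hne' : ∀ j, (ζ⁻¹) ^ j * E⁻¹ ≠ 1 := by
    intro j h
    apply hw
    have h2 : ((ζ⁻¹) ^ j * E⁻¹) ^ n = 1 := by rw [h, one_pow]
    rwa [mul_pow, ← pow_mul, mul_comm j n, pow_mul, hζ'.pow_eq_one, one_pow, one_mul] at h2
  -- factorisation
  have hfac : ∀ j : ℕ, (1 - ζ ^ j * E⁻¹) * (1 - (ζ⁻¹) ^ j * E⁻¹) =
      2 * E⁻¹ * (Real.cos t - Real.cos (j * (2 * Real.pi / n))) := by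
    intro j
    rw [hcj, hct]
    have h1 : ζ ^ j * (ζ⁻¹) ^ j = 1 := by rw [← mul_pow, mul_inv_cancel₀ hζ0, one_pow]
    have h2 : E⁻¹ * E = 1 := inv_mul_cancel₀ hE0
    linear_combination E⁻¹ * E⁻¹ * h1 - h2
  have hdne : ∀ j : ℕ, ((Real.cos t : ℝ) : ℂ) - (Real.cos (j * (2 * Real.pi / n)) : ℝ) ≠ 0 := by
    intro j h0
    have h1 := hfac j
    rw [h0, mul_zero] at h1
    rcases mul_eq_zero.1 h1 with h2 | h2
    · exact hne j (sub_eq_zero.1 h2).symm
    · exact hne' j (sub_eq_zero.1 h2).symm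
  refine ⟨fun j h0 => hdne j (by rw [h0]; ring), ?_⟩
  have hterm : ∀ j ∈ range n, 1 / (1 - ζ ^ j * E⁻¹) + 1 / (1 - (ζ⁻¹) ^ j * E⁻¹) =
      1 - I * (Real.sin t / (Real.cos (j * (2 * Real.pi / n)) - Real.cos t)) := by
    intro j _
    have a1 : 1 - ζ ^ j * E⁻¹ ≠ 0 := sub_ne_zero.2 (Ne.symm (hne j))
    have a2 : 1 - (ζ⁻¹) ^ j * E⁻¹ ≠ 0 := sub_ne_zero.2 (Ne.symm (hne' j))
    have a3 := hdne j
    have a4 : ((Real.cos (j * (2 * Real.pi / n)) : ℝ) : ℂ) - (Real.cos t : ℝ) ≠ 0 := by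
      intro h0
      apply a3
      linear_combination -h0
    have h2 : E⁻¹ * E = 1 := inv_mul_cancel₀ hE0
    have h3 : 1 / (1 - ζ ^ j * E⁻¹) + 1 / (1 - (ζ⁻¹) ^ j * E⁻¹) =
        (2 - 2 * E⁻¹ * (Real.cos (j * (2 * Real.pi / n)) : ℝ)) /
          (2 * E⁻¹ * (Real.cos t - Real.cos (j * (2 * Real.pi / n)))) := by
      rw [div_add_div _ _ a1 a2, hfac j, hcj j]
      congr 1
      ring
    rw [h3, div_eq_iff (mul_ne_zero (mul_ne_zero two_ne_zero (inv_ne_zero hE0)) a3)]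
    have h4 : (1 - I * (((Real.sin t : ℝ) : ℂ) / ((Real.cos (j * (2 * Real.pi / n)) : ℝ) -
        (Real.cos t : ℝ)))) * (2 * E⁻¹ * ((Real.cos t : ℝ) - (Real.cos (j * (2 * Real.pi / n)) : ℝ)))
        = 2 * E⁻¹ * ((Real.cos t : ℝ) - (Real.cos (j * (2 * Real.pi / n)) : ℝ) +
          I * (Real.sin t : ℝ)) := by
      have h5 : ((Real.sin t : ℝ) : ℂ) / ((Real.cos (j * (2 * Real.pi / n)) : ℝ) -
        (Real.cos t : ℝ)) * ((Real.cos (j * (2 * Real.pi / n)) : ℝ) - (Real.cos t : ℝ)) =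
          (Real.sin t : ℝ) := div_mul_cancel₀ _ a4
      linear_combination 2 * E⁻¹ * I * h5
    rw [h4, hct, hst]
    linear_combination (-1 : ℂ) * h2 * 2 - (E⁻¹ * (E⁻¹ - E)) * Complex.I_sq
  have hsum : ∑ j ∈ range n, (1 / (1 - ζ ^ j * E⁻¹) + 1 / (1 - (ζ⁻¹) ^ j * E⁻¹)) =
      2 * n / (1 - (E⁻¹) ^ n) := by
    rw [sum_add_distrib, s1, s2]
    ring
  rw [sum_congr rfl hterm, sum_sub_distrib, ← mul_sum] at hsum
  simp only [sum_const, card_range, nsmul_eq_mul, mul_one] at hsum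
  have hs' : ((Real.sin (n * t / 2) : ℝ) : ℂ) ≠ 0 := by exact_mod_cast hs
  have hkey : ((∑ j ∈ range n, Real.sin t / (Real.cos (j * (2 * Real.pi / n)) - Real.cos t) : ℝ) : ℂ)
      = ((n * (Real.cos (n * t / 2) / Real.sin (n * t / 2)) : ℝ) : ℂ) := by
    push_cast at hsum ⊢
    have h5 : (n : ℂ) - 2 * n / (1 - (E⁻¹) ^ n) =
        I * (n * (Complex.cos (n * t / 2) / Complex.sin (n * t / 2))) := by
      have e1 : Complex.cos (n * t / 2) = (h + h⁻¹) / 2 := by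
        rw [← hcos]
        push_cast
        rfl
      have e2 : Complex.sin (n * t / 2) = (h⁻¹ - h) * I / 2 := by
        rw [← hsin]
        push_cast
        rfl
      have e3 : (E⁻¹) ^ n = (h⁻¹) ^ 2 := by rw [inv_pow, hEn, inv_pow]
      rw [e1, e2, e3]
      have e4 : h⁻¹ - h ≠ 0 := by
        intro h0
        apply hh2
        field_simp at h0
        linear_combination -h0
      have e5 : 1 - (h⁻¹) ^ 2 ≠ 0 := by
        intro h0
        apply hh2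
        field_simp at h0
        linear_combination h0
      have hI : (I : ℂ) ≠ 0 := Complex.I_ne_zero
      have e6 : 1 - h ^ 2 ≠ 0 := by
        intro h0
        apply hh2
        linear_combination -h0
      field_simp
      ring
    have h6 : I * (∑ j ∈ range n, Complex.sin t / (Complex.cos (j * (2 * Real.pi / n)) -
        Complex.cos t)) = I * (n * (Complex.cos (n * t / 2) / Complex.sin (n * t / 2))) := by
      rw [← h5, ← hsum]
      ring
    exact mul_left_cancel₀ Complex.I_ne_zero h6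
  exact_mod_cast hkey

end Pool.Agent.H25.KP
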