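import Pool.Agent.H25.KP.Far

/-!
# Module M9: the monotonicity inequality
-/

namespace Pool.Agent.H25.KP

open Finset Real Pool.Agent.H85.KP

/-- the two middle terms have the right sign when `p2 ≤ 0` -/
lemma F_split {l u θ p1 p2 p3 y R : ℝ} (hp1 : p1 = y * p3) (hp3 : 0 ≤ p3) (hp2 : p2 ≤ 0)
    (h : l * u * y ≤ θ) (hF : 0 ≤ 1 + l * p2 - R) :
    0 ≤ 1 + l * p2 - R + 4 * l * u * p1 * p2 - 4 * θ * p2 * p3 := by
  have h1 : 4 * l * u * p1 * p2 - 4 * θ * p2 * p3 = 4 * (p3 * (-p2)) * (θ - l * u * y) := by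
    rw [hp1]
    ring
  have h2 : 0 ≤ 4 * (p3 * (-p2)) * (θ - l * u * y) := by
    have h3 : 0 ≤ p3 * (-p2) := mul_nonneg hp3 (by linarith)
    have h4 : 0 ≤ θ - l * u * y := by linarith
    positivity
  linarith

lemma poly1 {c τ : ℝ} (hc : 3 / 10 < c) (hτ : τ ≤ 5 / 3) :
    τ * (1 + 2 * c) ^ 2 ≤ 4 * ((1 + c) * (2 * (1 + c) - τ)) := by
  have h1 : 0 ≤ (5 / 3 - τ) * (4 * (1 + c) + (1 + 2 * c) ^ 2) := by
    apply mul_nonneg (by linarith)
    positivity
  nlinarith [sq_nonneg c]

lemma poly2 {c τ : ℝ} (hc : 3 / 10 < c) (hc1 : c < 1) (hτ : τ ≤ 6 / 5) :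
    τ * (1 + 2 * c) ^ 2 ≤ 2 * ((1 + c) * (2 * (1 + c) - τ)) := by
  have h1 : 0 ≤ (6 / 5 - τ) * (2 * (1 + c) + (1 + 2 * c) ^ 2) := by
    apply mul_nonneg (by linarith)
    positivity
  nlinarith [mul_pos (show (0 : ℝ) < c by linarith) (sub_pos.2 hc1)]

lemma m_le_two {m c : ℝ} (h : m * (1 + c) ≤ 2 + c) (hc : 3 / 10 < c) : m ≤ 2 := by
  by_contra h2
  push Not at h2
  nlinarith

lemma m_bound {m c x : ℝ} (h : m * (1 + c) ≤ 2 + c) (hc : 3 / 10 < c) (hx : 0 < 1 + x)
    (hxc : x < c) : m * (1 + x) ≤ 2 + x := by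
  rcases le_total m 1 with h1 | h1
  · nlinarith
  · nlinarith

lemma he26_aux {a c e : ℝ} (ha : 0 < a) (hc : 3 / 10 < c) (h : 2 * a * (1 + c) ≤ e) :
    2.6 * a ≤ e := by
  nlinarith

lemma mid1_bound {N a e l D K B : ℝ} (hN : 0 < N) (hl0 : 0 < l) (hl : l < 3 / 5)
    (hD : D = e * (1 - l)) (hK : K = l / N) (hae : a = l * e) (he0 : 0 < e) (hA : 17 < N ^ 2 * a)
    (hB0 : 0 ≤ B) (hB : B ≤ 14.1) : K ^ 2 / D * B ≤ 1 := by
  have h1l : 0 < 1 - l := by linarith
  have h3 : K ^ 2 / D ≤ 1 / 30 := by
    have h6 : K ^ 2 / D = l ^ 3 / ((N ^ 2 * a) * (1 - l)) := by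
      rw [hD, hK, hae]
      field_simp
    rw [h6, div_le_iff₀ (by positivity)]
    have h8 : l ^ 3 ≤ (3 / 5) ^ 3 := by gcongr
    have h9 : 17 * (2 / 5) ≤ N ^ 2 * a * (1 - l) := by
      apply mul_le_mul hA.le (by linarith) (by norm_num) (by linarith)
    norm_num at h8 h9 ⊢
    linarith
  calc K ^ 2 / D * B ≤ 1 / 30 * 14.1 := by
        apply mul_le_mul h3 hB hB0 (by norm_num)
    _ ≤ 1 := by norm_num

lemma far_theta {N a e D K x : ℝ} (hN : 0 < N) (ha0 : 0 < a) (he0 : 0 < e) (hD0 : 0 < D)
    (hK : K = a / (N * e)) (hx : x < 1) (he : 2.6 * a ≤ e) (hD : 1.6 * a ≤ D)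
    (hA : 17 < N ^ 2 * a) : K ^ 2 * (2 + x) / D ≤ 0.02 := by
  rw [div_le_iff₀ hD0]
  have h1 : K ^ 2 * (2 + x) ≤ K ^ 2 * 3 := by
    gcongr
    linarith
  have h2 : K ^ 2 = a ^ 2 / (N ^ 2 * e ^ 2) := by
    rw [hK]
    field_simp
  have h3 : K ^ 2 ≤ 0.009 * a := by
    rw [h2, div_le_iff₀ (by positivity)]
    have h4 : (2.6 * a) ^ 2 ≤ e ^ 2 := by gcongr
    calc a ^ 2 ≤ 0.009 * (17 * (2.6 * a) ^ 2) := by nlinarith [sq_nonneg a]
      _ ≤ 0.009 * (N ^ 2 * a * e ^ 2) := by gcongr
      _ = 0.009 * a * (N ^ 2 * e ^ 2) := by ring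
  linarith

lemma mid2_final {l ν p1 p2 p3 y : ℝ} (hl0 : 0 < l) (hl1 : l < 1) (hν0 : 0 < ν)
    (hνy : 1 ≤ ν * y) (hp3 : 0 ≤ p3) (hp3y : p3 * (1 + y ^ 2) = 1) (hp2y : p2 = (y ^ 2 - 1) * p3)
    (hp1y : p1 = y * p3) : 0 ≤ 1 + l * p2 - 2 * l / ν * p1 := by
  have hy0 : 0 < y := by
    by_contra h
    push Not at h
    nlinarith
  have h1 : 1 + l * p2 - 2 * l / ν * p1 = (1 - l) + l * (2 * p3 * y * (ν * y - 1) / ν) := by
    have h2 : p2 = 2 * y ^ 2 * p3 - 1 := by
      rw [hp2y]
      linear_combination (-1) * hp3y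
    rw [h2, hp1y]
    have h5 : p3 * y ^ 2 = 1 - p3 := by linear_combination hp3y
    field_simp
    ring
  rw [h1]
  have h3 : 0 ≤ ν * y - 1 := by linarith
  have h4 : 0 ≤ 1 - l := by linarith
  positivity

lemma far_R {N K sn S C u T l s q : ℝ} (hK : 0 < K) (hsn : 0 < sn) (hu0 : 0 < u) (hu1 : u ≤ 0.1)
    (hNK : N * K = l) (hN : 0 < N) (hSC : S ^ 2 + C ^ 2 = 1) (hT : T = C - 2 * u * S)
    (hq : q = S ^ 2 + T ^ 2) (hq0 : 0 < q) (hs : s = 2 * S * C) (hs1 : s ≤ 1) (hs2 : s ≤ N * sn) :
    2 * K / sn * (S * T / q) ≤ l / (1 - 2 * u) := by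
  have h12u : 0 < 1 - 2 * u := by linarith
  have hl0 : 0 < l := by rw [← hNK]; positivity
  rcases le_total (S * T) 0 with h | h
  · have h1 : S * T / q ≤ 0 := div_nonpos_of_nonpos_of_nonneg h hq0.le
    have h2 : 2 * K / sn * (S * T / q) ≤ 0 := by
      apply mul_nonpos_of_nonneg_of_nonpos _ h1
      positivity
    have h3 : 0 ≤ l / (1 - 2 * u) := by positivity
    linarith
  · have h1 : 2 * (S * T) = s - 4 * u * S ^ 2 := by
      rw [hs, hT]
      ring
    have h2 : q = 1 - 2 * u * s + 4 * u ^ 2 * S ^ 2 := by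
      rw [hq, hT, hs]
      linear_combination hSC
    have h6 : 0 ≤ u * S ^ 2 := by positivity
    have h7 : 0 ≤ s := by linarith
    have h8 : 1 - 2 * u ≤ q := by
      rw [h2]
      nlinarith [mul_nonneg hu0.le (sub_nonneg.2 hs1), sq_nonneg (u * S)]
    have h9 : 2 * (S * T / q) ≤ N * sn / (1 - 2 * u) := by
      have : 2 * (S * T / q) = 2 * (S * T) / q := by ring
      rw [this]
      apply div_le_div₀ (by positivity) _ h12u h8
      linarith
    calc 2 * K / sn * (S * T / q) = K / sn * (2 * (S * T / q)) := by ring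
      _ ≤ K / sn * (N * sn / (1 - 2 * u)) := by gcongr
      _ = l / (1 - 2 * u) := by
          rw [← hNK]
          field_simp

section

variable {n : ℕ} (hn : 5 ≤ n)

include hn

lemma nu_ge {t : ℝ} (ht1 : 2 * π / n < t) (ht2 : t < 2 * (2 * π / n)) :
    2 ≤ n * sin t := by
  have hn0 := npos hn
  have hpi := pi_pos
  have h5 : (5 : ℝ) ≤ n := by exact_mod_cast hn
  rcases le_total t (π / 2) with h | h
  · have h1 : 2 / π * t ≤ sin t := mul_le_sin (by
      have : 0 < 2 * π / n := by positivity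
      linarith) h
    have h2 : 4 / n ≤ 2 / π * t := by
      calc (4 : ℝ) / n = 2 / π * (2 * π / n) := by
            field_simp
            norm_num
        _ ≤ 2 / π * t := by gcongr
    have h3 : 4 / n ≤ sin t := h2.trans h1
    rw [div_le_iff₀ hn0] at h3
    linarith
  · have h0 : t < π - π / n := by
      refine ht2.trans_le ?_
      have : 5 * (π / n) ≤ π := by
        rw [← mul_div_assoc, div_le_iff₀ hn0]
        nlinarith
      have e : 2 * (2 * π / n) = 4 * (π / n) := by ring
      rw [e]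
      linarith
    have h1 : 2 / π * (π - t) ≤ sin (π - t) := mul_le_sin (by
      have : 0 < π / n := by positivity
      linarith) (by linarith)
    rw [sin_pi_sub] at h1
    have h2 : 2 / n ≤ 2 / π * (π - t) := by
      calc (2 : ℝ) / n = 2 / π * (π / n) := by
            field_simp
        _ ≤ 2 / π * (π - t) := by
            gcongr
            linarith
    have h3 : 2 / n ≤ sin t := h2.trans h1
    rw [div_le_iff₀ hn0] at h3
    linarith

/-- bound for `w` beyond `a` -/
lemma wf_bound {e τ W : ℝ} (hτ : τ = e / (1 - cos (2 * π / n))) (hea : 1 - cos (2 * π / n) ≤ e)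
    (hτ2 : τ < 2 * (1 + cos (2 * π / n)))
    (h : τ * (1 + 2 * cos (2 * π / n)) ^ 2 ≤
      W * ((1 + cos (2 * π / n)) * (2 * (1 + cos (2 * π / n)) - τ))) :
    wf n e ≤ W := by
  have hc1 := cos_ge hn
  have hc2 := cos_lt_one hn
  have he2 := ej_two hn
  have hwa := wf_a hn
  set c := cos (2 * π / n) with hc
  set a := 1 - c with ha
  have ha0 : 0 < a := by rw [ha]; linarith
  have hee : e = a * τ := by rw [hτ]; field_simp
  have he2' : ej n 2 = a * (2 * (1 + c)) := by rw [he2]; ring
  have hlt : e < ej n 2 := by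
    rw [he2', hee]
    gcongr
  have h1 := wf_le_of_ge hn hea hlt
  rw [← hc, ← ha, he2', hwa, hee] at h1
  have h2 : wf n (a * τ) * (2 * (1 + c) - τ) ≤ τ * (1 + 2 * c) ^ 2 / (1 + c) := by
    have e1 : wf n (a * τ) * (a * (a * (2 * (1 + c)) - a * τ)) =
        a ^ 2 * (wf n (a * τ) * (2 * (1 + c) - τ)) := by ring
    have e2 : a * τ * (a * (2 * (1 + c)) - a) * ((1 + 2 * c) / (1 + c)) =
        a ^ 2 * (τ * (1 + 2 * c) ^ 2 / (1 + c)) := by
      field_simp
      ring
    rw [e1, e2] at h1
    exact le_of_mul_le_mul_left h1 (by positivity)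
  rw [hee]
  have h3 : 0 < 2 * (1 + c) - τ := by linarith
  have h4 : τ * (1 + 2 * c) ^ 2 / (1 + c) ≤ W * (2 * (1 + c) - τ) := by
    rw [div_le_iff₀ (by linarith)]
    linarith
  exact le_of_mul_le_mul_right (h2.trans h4) h3

lemma F_nonneg {t : ℝ} (ht1 : 2 * π / n < t) (htpi : t < π) {a e D K S C u T sn x : ℝ}
    (ha : a = 1 - cos (2 * π / n)) (he : e = 1 - cos t) (hD : D = DD n t) (hK : K = a / (n * e))
    (hS : S = sin (n * t / 2)) (hC : C = cos (n * t / 2)) (hsn : sn = sin t)
    (hu : u = K * sn / D) (hT : T = C - 2 * u * S) (hx : x = cos t) :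
    0 ≤ (1 + a / e * ((T ^ 2 - S ^ 2) / (S ^ 2 + T ^ 2)) -
      2 * K / sn * (S * T / (S ^ 2 + T ^ 2)) +
      4 * (a / e) * u * (S * T / (S ^ 2 + T ^ 2)) * ((T ^ 2 - S ^ 2) / (S ^ 2 + T ^ 2)) -
      4 * (K ^ 2 * (2 + x) / D) * ((T ^ 2 - S ^ 2) / (S ^ 2 + T ^ 2)) *
        (S ^ 2 / (S ^ 2 + T ^ 2))) := by
  have hn0 := npos hn
  have hpi := pi_pos
  have hpi4 := pi_gt_d4
  have hpi4' := pi_lt_d4
  have h5 : (5 : ℝ) ≤ n := by exact_mod_cast hn
  have hc1 := cos_ge hn
  have hc2 := cos_lt_one hn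
  have hA := A_bounds hn
  have hφ0 : 0 < 2 * π / n := by positivity
  have ht0 : 0 < t := by linarith
  have he0 : 0 < e := by rw [he]; exact one_sub_cos_pos ht0 htpi
  have hct : cos t < cos (2 * π / n) := cos_lt_cos_of_nonneg_of_le_pi hφ0.le htpi.le ht1
  have hDe : D = e - a := by rw [hD, he, ha]; unfold DD; ring
  have ha0 : 0 < a := by rw [ha]; linarith
  have hD0 : 0 < D := by rw [hDe, he, ha]; linarith
  have hsn0 : 0 < sn := by rw [hsn]; exact sin_pos_of_pos_of_lt_pi ht0 htpi
  have hK0 : 0 < K := by rw [hK]; positivity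
  have hu0 : 0 < u := by rw [hu]; positivity
  have hSC : S ^ 2 + C ^ 2 = 1 := by rw [hS, hC]; exact sin_sq_add_cos_sq _
  have hq : 0 < S ^ 2 + T ^ 2 := by
    rcases eq_or_ne S 0 with h0 | h0
    · have : T = C := by rw [hT, h0]; ring
      rw [this, hSC]
      norm_num
    · positivity
  have hx1 : x < 1 := by rw [hx]; linarith
  have hx2 : -1 < x := by
    rw [hx]
    have : cos π < cos t := cos_lt_cos_of_nonneg_of_le_pi ht0.le le_rfl htpi
    rwa [cos_pi] at this
  have hxe : x = 1 - e := by rw [hx, he]; ring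
  have hnK : n * K = a / e := by rw [hK]; field_simp
  set q := S ^ 2 + T ^ 2 with hqdef
  set p1 := S * T / q with hp1def
  set p2 := (T ^ 2 - S ^ 2) / q with hp2def
  set p3 := S ^ 2 / q with hp3def
  set l := a / e with hl
  set θ := K ^ 2 * (2 + x) / D with hθ
  have hl0 : 0 < l := by positivity
  have hl1 : l < 1 := by rw [hl, div_lt_one he0]; linarith
  have hθ0 : 0 ≤ θ := by
    have : 0 < 2 + x := by linarith
    positivity
  have hp3 : 0 ≤ p3 := by positivity
  have hp2 : p2 = 1 - 2 * p3 := by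
    rw [hp2def, hp3def]
    field_simp
    rw [hqdef]
    ring
  have hp1 : p1 ^ 2 = p3 * (1 - p3) := by
    rw [hp1def, hp3def]
    field_simp
    rw [hqdef]
    ring
  have hp3' : p3 ≤ 1 := by
    rw [hp3def, div_le_one hq, hqdef]
    nlinarith [sq_nonneg T]
  -- common bounds
  have hae : a = l * e := by rw [hl]; field_simp
  have hKl : K = l / n := by rw [← hnK]; field_simp
  rcases lt_or_ge t (2 * (2 * π / n)) with ht2 | ht2
  · -- middle range
    have hne : t ≠ 2 * π / n := ht1.ne'
    have hk := key hn ht0 htpi ht2 hne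
    have hs := sin_half_ne hn ht0 ht2 hne
    have hν := nu_ge hn ht1 ht2
    rw [← hsn] at hν
    have hc2' : 0 < cos (t / 2) := cos_pos_of_mem_Ioo ⟨by linarith, by linarith⟩
    have hs2 : 0 < sin (t / 2) := sin_pos_of_pos_of_lt_pi (by linarith) (by linarith)
    rw [← hS] at hs
    rw [← hC, ← hS, ← he, ← ha, ← hD] at hk
    set m := 3 - wf n e with hm
    set g := n * (sin (t / 2) / cos (t / 2)) with hg
    have hg0 : 0 < g := by positivity
    have hgpi : π < g := by
      have h1 : t / 2 ≤ tan (t / 2) := le_tan (by linarith) (by linarith)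
      rw [tan_eq_sin_div_cos] at h1
      calc π = n * (2 * π / n / 2) := by field_simp
        _ < n * (t / 2) := by gcongr
        _ ≤ g := by rw [hg]; gcongr
    -- 1 + x = 2 cos^2
    have h1x : 1 + x = 2 * cos (t / 2) ^ 2 := by
      have : cos t = cos (2 * (t / 2)) := by congr 1; ring
      rw [hx, this, cos_two_mul]
      ring
    have hsn2 : sn = 2 * sin (t / 2) * cos (t / 2) := by
      rw [hsn, ← sin_two_mul]
      congr 1
      ring
    have hesin : e = 2 * sin (t / 2) ^ 2 := by
      have : cos t = cos (2 * (t / 2)) := by congr 1; ring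
      rw [he, this, cos_two_mul, cos_sq']
      ring
    set y := m / g with hy
    have hug : u * g = a / D := by
      rw [hu, hK, hsn2, hg, hesin]
      field_simp
    have hTy : T = S * y := by
      rw [hT]
      have h1 : C = S * ((m + 2 * a / D) / g) := by
        rw [← hk]
        field_simp
      rw [h1, hy]
      have h2 : u = a / D / g := by
        rw [← hug]
        field_simp
      rw [h2]
      field_simp
      ring
    have hνy : n * sn * y = m * (1 + x) := by
      rw [hy, hg, hsn2, h1x]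
      field_simp
    have hp1y : p1 = y * p3 := by
      rw [hp1def, hp3def, hTy]
      ring
    have hp3y : p3 * (1 + y ^ 2) = 1 := by
      rw [hp3def, hqdef, hTy]
      field_simp
    have hp2y : p2 = (y ^ 2 - 1) * p3 := by
      rw [hp2def, hp3def, hTy]
      ring
    have hp3pos : 0 < p3 := by
      by_contra h
      have : p3 = 0 := le_antisymm (not_lt.1 h) hp3
      rw [this, zero_mul] at hp3y
      exact zero_ne_one hp3y
    -- m is at most (2+c)/(1+c)
    have hwa := wf_a hn
    have hea : 1 - cos (2 * π / n) ≤ e := by rw [he]; linarith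
    have he2lt : e < ej n 2 := by
      have h6 : cos (2 * (2 * π / n)) < cos t := by
        apply cos_lt_cos_of_nonneg_of_le_pi ht0.le _ ht2
        rw [← mul_div_assoc, div_le_iff₀ hn0]
        nlinarith
      rw [he]
      unfold ej
      push_cast
      linarith
    have hwge := le_wf_of_ge hn hea he2lt
    rw [hwa] at hwge
    set c := cos (2 * π / n) with hc
    have hm1 : m * (1 + c) ≤ 2 + c := by
      have h1 : m ≤ 3 - (1 + 2 * c) / (1 + c) := by rw [hm]; linarith
      have h2 : 0 < 1 + c := by linarith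
      calc m * (1 + c) ≤ (3 - (1 + 2 * c) / (1 + c)) * (1 + c) := by gcongr
        _ = 2 + c := by
            field_simp
            ring
    have hxc : x < c := by rw [hx]; exact hct
    have hm2 : m * (1 + x) ≤ 2 + x := m_bound hm1 hc1 (by linarith only [hx2]) hxc
    have hlu : l * u = K ^ 2 / D * (n * sn) := by
      rw [hu, ← hnK]
      field_simp
    have hluθ : l * u * y ≤ θ := by
      rw [hlu, hθ]
      have : K ^ 2 / D * (n * sn) * y = K ^ 2 / D * (m * (1 + x)) := by
        rw [← hνy]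
        ring
      rw [this]
      have h7 : K ^ 2 * (2 + x) / D = K ^ 2 / D * (2 + x) := by ring
      rw [h7]
      gcongr
    have hτ : e / a = 1 / l := by rw [hl]; field_simp
    rcases lt_or_ge y (-1) with hy1 | hy1
    · -- y < -1
      have hl6 : l < 3 / 5 := by
        by_contra hcon
        push Not at hcon
        have hw4 : wf n e ≤ 4 := by
          have hτle : e / (1 - c) ≤ 5 / 3 := by
            rw [← ha, hτ, div_le_iff₀ hl0]
            linarith
          have hτ0 : 0 < e / (1 - c) := by rw [← ha]; positivity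
          apply wf_bound hn rfl hea
          · rw [← hc]; linarith
          · rw [← hc]
            exact poly1 hc1 hτle
        have h1 : m ≥ -1 := by rw [hm]; linarith
        have h2 : -1 ≤ y := by
          rw [hy, le_div_iff₀ hg0]
          linarith only [h1, hgpi, hpi4]
        linarith only [h2, hy1]
      have hbound : l * u + θ / 2 ≤ 1 := by
        have h1 : l * u + θ / 2 = K ^ 2 / D * (n * sn + (2 + x) / 2) := by
          rw [hlu, hθ]
          ring
        have h2 : n * sn + (2 + x) / 2 ≤ 14.1 := by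
          have h3 : sn ≤ t := by rw [hsn]; exact sin_le ht0.le
          have h4 : n * sn ≤ 4 * π := by
            calc n * sn ≤ n * (2 * (2 * π / n)) := by
                  gcongr
                  linarith
              _ = 4 * π := by
                  field_simp
                  norm_num
          linarith
        rw [h1]
        have h7 : 17 < (n : ℝ) ^ 2 * a := by rw [ha]; exact hA.1
        exact mid1_bound hn0 hl0 hl6 (by rw [hDe]; linear_combination -hae) hKl hae he0 h7 (by
          have : 0 < 2 + x := by linarith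
          positivity) h2
      have hy2 : 0 ≤ y ^ 2 - 1 := by
        have h1 : 0 < (-1 - y) * (1 - y) := mul_pos (by linarith only [hy1]) (by linarith only [hy1])
        linarith only [h1]
      exact F_mid1 hl0 hu0.le hθ0 hbound hp2 (by rw [hp2y]; positivity) hp1 (by
        rw [hp1y]
        have h1 : 2 * K / sn * (y * p3) = -(2 * K / sn * ((-y) * p3)) := by ring
        rw [h1]
        have : 0 ≤ -y := by linarith
        have : 0 ≤ 2 * K / sn * ((-y) * p3) := by positivity
        linarith)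
    · -- -1 ≤ y ≤ 1
      have hm3 : m ≤ 2 := m_le_two hm1 hc1
      have hy2 : y ≤ 1 := by
        rw [hy, div_le_one hg0]
        linarith only [hm3, hgpi, hpi4]
      have hyy : y ^ 2 ≤ 1 := (sq_le_one_iff_abs_le_one y).2 (abs_le.2 ⟨hy1, hy2⟩)
      have hp20 : p2 ≤ 0 := by
        rw [hp2y]
        apply mul_nonpos_of_nonpos_of_nonneg _ hp3
        linarith
      have hR : 2 * K / sn = 2 * l / (n * sn) := by
        rw [hKl]
        field_simp
      apply F_split hp1y hp3 hp20 hluθ
      rw [hR]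
      rcases le_or_gt l (5 / 6) with hl56 | hl56
      · apply F_mid2 hl0 hl56 hν _ hp20
        · rw [hp1, hp2]
          ring
        · rw [hp2]
          linarith
      · -- λ > 5/6
        have hw2 : wf n e ≤ 2 := by
          have hτle : e / (1 - c) ≤ 6 / 5 := by
            rw [← ha, hτ, div_le_iff₀ hl0]
            linarith
          have hτ0 : 0 < e / (1 - c) := by rw [← ha]; positivity
          apply wf_bound hn rfl hea
          · rw [← hc]; linarith
          · rw [← hc]
            exact poly2 hc1 hc2 hτle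
        have hm4 : 1 ≤ m := by rw [hm]; linarith
        have he6 : e ≤ 0.84 := by
          have h1 : e * l = a := by linear_combination -hae
          have h2 : a ≤ 0.7 := by rw [ha]; linarith only [hc1]
          have h3 := mul_le_mul_of_nonneg_left hl56.le he0.le
          linarith only [h1, h2, h3]
        have hνy1 : 1 ≤ n * sn * y := by
          rw [hνy]
          have h1 : 1 ≤ 1 + x := by linarith only [hxe, he6]
          exact one_le_mul_of_one_le_of_one_le hm4 h1
        exact mid2_final hl0 hl1 (by positivity) hνy1 hp3 hp3y hp2y hp1y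
  · -- far range
    have he2 : ej n 2 ≤ e := by
      rw [he]
      unfold ej
      push_cast
      have : cos t ≤ cos (2 * (2 * π / n)) := by
        apply cos_le_cos_of_nonneg_of_le_pi (by positivity) htpi.le ht2
      linarith
    rw [ej_two hn, ← ha] at he2
    set c := cos (2 * π / n) with hc
    have he26 : 2.6 * a ≤ e := he26_aux ha0 hc1 he2
    have hD16 : 1.6 * a ≤ D := by rw [hDe]; linarith
    have hl385 : l ≤ 0.385 := by
      rw [hl, div_le_iff₀ he0]
      linarith only [he26, ha0]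
    have hu1 : u ≤ 0.1 := by
      have h1 : K * sn = kap n t := by
        rw [kap_eq ht0 htpi, hK, hsn, ← ha, ← he]
        field_simp
      have h2 : kap n t ≤ a / (2 * π) := by
        unfold kap
        rw [← hc, ← ha]
        have hc2' : 0 < cos (t / 2) := cos_pos_of_mem_Ioo ⟨by linarith, by linarith⟩
        have hs2 : 0 < sin (t / 2) := sin_pos_of_pos_of_lt_pi (by linarith) (by linarith)
        have h3 : t / 2 ≤ tan (t / 2) := le_tan (by linarith) (by linarith)
        rw [tan_eq_sin_div_cos, le_div_iff₀ hc2'] at h3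
        have h4 : cos (t / 2) / sin (t / 2) ≤ 1 / (2 * π / n) := by
          rw [div_le_div_iff₀ hs2 hφ0]
          have h5 : cos (t / 2) * (2 * π / n) ≤ cos (t / 2) * (t / 2) :=
            mul_le_mul_of_nonneg_left (by linarith only [ht2]) hc2'.le
          linarith only [h3, h5]
        calc a / n * (cos (t / 2) / sin (t / 2)) ≤ a / n * (1 / (2 * π / n)) := by gcongr
          _ = a / (2 * π) := by field_simp
      rw [hu, h1, div_le_iff₀ hD0]
      have h3 : a / (2 * π) ≤ 0.16 * a := by
        rw [div_le_iff₀ (by positivity)]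
        have h4 : 0 < a * (π - 3.1415) := mul_pos ha0 (by linarith only [hpi4])
        linarith only [h4, ha0]
      linarith only [h2, h3, hD16]
    have hθ2 : θ ≤ 0.02 := by
      have h7 : 17 < (n : ℝ) ^ 2 * a := by rw [ha]; exact hA.1
      exact far_theta hn0 ha0 he0 hD0 hK hx1 he26 hD16 h7
    have hR : 2 * K / sn * p1 ≤ l / (1 - 2 * u) := by
      have h3 : sin (n * t) ≤ n * sn := by
        have := abs_sin_nat_mul n t
        rw [← hsn, abs_of_pos hsn0] at this
        exact (le_abs_self _).trans this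
      exact far_R (s := sin (n * t)) hK0 hsn0 hu0 hu1 hnK hn0 hSC hT hqdef hq (by
        rw [hS, hC, ← sin_two_mul]
        congr 1
        ring) (sin_le_one _) h3
    exact F_far hl0 hl385 hu0.le hu1 hθ0 hθ2 hp3 hp3' hp2 hp1 hR

/-- Monotonicity on `(φ, π)`. -/
lemma monotone_far : MonotoneOn (RR n) (Set.Ioo (2 * π / n) π) := by
  have hn0 := npos hn
  have hpi := pi_pos
  have hφ0 : 0 < 2 * π / n := by positivity
  set b := (1 - cos (2 * π / n)) / (n : ℝ) with hb
  set κ : ℝ → ℝ := fun t => b * (sin t / (1 - cos t)) with hκ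
  set S : ℝ → ℝ := fun t => sin (n * t / 2) with hS
  set T : ℝ → ℝ := fun t => cos (n * t / 2) - 2 * (κ t / DD n t) * sin (n * t / 2) with hT
  set g : ℝ → ℝ := fun t => 2 * DD n t + 4 * κ t * (S t * T t / (S t ^ 2 + T t ^ 2)) with hg
  have hDne : ∀ t ∈ Set.Ioo (2 * π / n) π, DD n t ≠ 0 := fun t ht =>
    DD_ne hn (by linarith [ht.1]) ht.2 ht.1.ne'
  have heq : ∀ t ∈ Set.Ioo (2 * π / n) π, RR n t = g t := by
    intro t ht
    rw [RR_eq (hDne t ht), kap_eq (by linarith [ht.1]) ht.2]
  have hqne : ∀ t ∈ Set.Ioo (2 * π / n) π, S t ^ 2 + T t ^ 2 ≠ 0 := by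
    intro t ht h0
    have h1 : S t = 0 := by nlinarith [sq_nonneg (S t), sq_nonneg (T t)]
    have h2 : T t = 0 := by nlinarith [sq_nonneg (S t), sq_nonneg (T t)]
    have h3 : cos (n * t / 2) = 0 := by
      have : T t = cos (n * t / 2) - 2 * (κ t / DD n t) * S t := rfl
      rw [this, h1, mul_zero, sub_zero] at h2
      exact h2
    have h4 := sin_sq_add_cos_sq ((n : ℝ) * t / 2)
    have h5 : sin (n * t / 2) = 0 := h1
    rw [h3, h5] at h4
    norm_num at h4
  have hder : ∀ t ∈ Set.Ioo (2 * π / n) π, ∃ g', HasDerivAt g g' t ∧ 0 ≤ g' := by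
    intro t ht
    have ht0 : 0 < t := by linarith [ht.1]
    have he0 := one_sub_cos_pos ht0 ht.2
    have hD' : HasDerivAt (fun t => DD n t) (sin t) t := by
      unfold DD
      refine ((hasDerivAt_cos t).const_sub _).congr_deriv ?_
      ring
    have hκ' : HasDerivAt κ (-(b / (1 - cos t))) t := hasDerivAt_kap b he0.ne'
    have hlin : HasDerivAt (fun t : ℝ => (n : ℝ) * t / 2) ((n : ℝ) / 2) t := by
      refine (((hasDerivAt_id t).const_mul (n : ℝ)).div_const 2).congr_deriv ?_
      ring
    have hS' : HasDerivAt S (n / 2 * cos (n * t / 2)) t := by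
      refine hlin.sin.congr_deriv ?_
      ring
    have hC' : HasDerivAt (fun t => cos (n * t / 2)) (-(n / 2) * sin (n * t / 2)) t := by
      refine hlin.cos.congr_deriv ?_
      ring
    have hT' : HasDerivAt T (-(n / 2) * sin (n * t / 2) -
        (2 * ((-(b / (1 - cos t)) * DD n t - κ t * sin t) / DD n t ^ 2) * sin (n * t / 2) +
          2 * (κ t / DD n t) * (n / 2 * cos (n * t / 2)))) t := by
      have h1 := ((hκ'.div hD' (hDne t ht)).const_mul 2).mul hS'
      exact hC'.sub h1
    refine ⟨_, hasDerivAt_main hD' hκ' hS' hT' (hqne t ht), ?_⟩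
    set a := 1 - cos (2 * π / n) with ha
    set e := 1 - cos t with he
    set K := a / (n * e) with hK
    set sn := sin t with hsn
    set D := DD n t with hD
    set u := K * sn / D with hu
    have hsn0 : 0 < sn := sin_pos_of_pos_of_lt_pi ht0 ht.2
    have hct : cos t < cos (2 * π / n) := cos_lt_cos_of_nonneg_of_le_pi hφ0.le ht.2.le ht.1
    have ha0 : 0 < a := by rw [ha]; linarith [cos_lt_one hn]
    have hDe : D = e - a := by rw [hD, he, ha]; unfold DD; ring
    have hD0 : 0 < D := by rw [hDe, he, ha]; linarith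
    have e1 : b / e = K := by
      rw [hb, hK]
      field_simp
    have e2 : κ t = K * sn := by
      have : κ t = b * (sn / e) := rfl
      rw [this, ← e1]
      field_simp
    have hCT : cos (n * t / 2) = T t + 2 * u * S t := by
      have : T t = cos (n * t / 2) - 2 * (κ t / D) * S t := rfl
      rw [this, e2]
      ring
    have hs2 : sn ^ 2 = e * (2 - e) := by
      have := sin_sq_add_cos_sq t
      rw [he, hsn]
      linear_combination this
    have hform := deriv_form (x := cos t) (u := u) hn0 ha0 he0 hD0 hsn0 (by rw [he]; ring) hDe hs2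
      hK rfl (hqne t ht)
    have hF := F_nonneg hn ht.1 ht.2 ha he hD hK (S := S t) rfl rfl hsn (u := u) rfl (T := T t)
      (by rw [hCT]; ring) rfl
    have e3 : 2 * sn + 4 * (-(b / e) * (S t * T t / (S t ^ 2 + T t ^ 2)) + κ t *
        ((T t ^ 2 - S t ^ 2) * (n / 2 * cos (n * t / 2) * T t - S t *
        (-(n / 2) * sin (n * t / 2) - (2 * ((-(b / e) * D - κ t * sn) / D ^ 2) * sin (n * t / 2) +
          2 * (κ t / D) * (n / 2 * cos (n * t / 2))))) / (S t ^ 2 + T t ^ 2) ^ 2)) =
        2 * sn + 4 * ((-K) * (S t * T t / (S t ^ 2 + T t ^ 2)) + K * sn * ((T t ^ 2 - S t ^ 2) *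
        (n / 2 * (T t + 2 * u * S t) * T t - S t * (-(n / 2) * S t -
          2 * ((-K * D - K * sn * sn) / D ^ 2) * S t
          - 2 * u * (n / 2 * (T t + 2 * u * S t)))) / (S t ^ 2 + T t ^ 2) ^ 2)) := by
      have hSS : sin (n * t / 2) = S t := rfl
      rw [e1, e2, hCT, hSS]
      have : K * sn / D = u := rfl
      rw [this]
      ring
    rw [e3, hform]
    positivity
  have hmono : MonotoneOn g (Set.Ioo (2 * π / n) π) := by
    apply monotoneOn_of_deriv_nonneg (convex_Ioo _ _)
    · intro t ht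
      obtain ⟨g', h1, -⟩ := hder t ht
      exact h1.continuousAt.continuousWithinAt
    · intro t ht
      rw [interior_Ioo] at ht
      obtain ⟨g', h1, -⟩ := hder t ht
      exact h1.differentiableAt.differentiableWithinAt
    · intro t ht
      rw [interior_Ioo] at ht
      obtain ⟨g', h1, h2⟩ := hder t ht
      rw [h1.deriv]
      exact h2
  intro x hx y hy hxy
  rw [heq x hx, heq y hy]
  exact hmono hx hy hxy

end

/-- Module M9. -/
theorem targetU2 : TargetU2 := fun _ hn => ⟨monotone_near hn, monotone_far hn⟩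

end Pool.Agent.H25.KP
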