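import Pool.Agent.H25.KP.PF

/-!
# The function `w` of the monotonicity inequality
-/

namespace Pool.Agent.H25.KP

open Finset Real

/-- `e_j = 1 - cos (2πj/n)`. -/
noncomputable def ej (n j : ℕ) : ℝ := 1 - cos (j * (2 * π / n))

/-- `w(e) = ∑_{j=2}^{n-2} e/(e_j - e)`. -/
noncomputable def wf (n : ℕ) (e : ℝ) : ℝ := ∑ j ∈ Ico 2 (n - 1), e / (ej n j - e)

/-- the derivative of `w` -/
noncomputable def wd (n : ℕ) (e : ℝ) : ℝ := ∑ j ∈ Ico 2 (n - 1), ej n j / (ej n j - e) ^ 2

section

variable {n : ℕ} (hn : 5 ≤ n)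

include hn

lemma npos : (0 : ℝ) < n := by
  have : (5 : ℝ) ≤ n := by exact_mod_cast hn
  linarith

lemma cos_ge : (3 : ℝ) / 10 < cos (2 * π / n) := by
  have h5 : (5 : ℝ) ≤ n := by exact_mod_cast hn
  have hpi := pi_pos
  have h1 : cos (2 * (π / 5)) ≤ cos (2 * π / n) := by
    apply cos_le_cos_of_nonneg_of_le_pi (by positivity)
    · linarith
    · rw [← mul_div_assoc]
      apply div_le_div_of_nonneg_left (by positivity) (by norm_num) h5
  rw [cos_two_mul, cos_pi_div_five] at h1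
  have h2 : (2.2 : ℝ) < √5 := by
    apply Real.lt_sqrt_of_sq_lt
    norm_num
  have h3 : √5 ^ 2 = 5 := Real.sq_sqrt (by norm_num)
  nlinarith

lemma cos_lt_one : cos (2 * π / n) < 1 := by
  have h5 : (5 : ℝ) ≤ n := by exact_mod_cast hn
  have hpi := pi_pos
  have h1 : cos (2 * π / n) < cos 0 := by
    apply cos_lt_cos_of_nonneg_of_le_pi le_rfl
    · rw [div_le_iff₀ (by linarith)]
      nlinarith
    · positivity
  rwa [cos_zero] at h1

lemma ej_two : ej n 2 = 2 * (1 - cos (2 * π / n)) * (1 + cos (2 * π / n)) := by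
  unfold ej
  push_cast
  rw [cos_two_mul]
  ring

lemma ej_ge {j : ℕ} (hj : j ∈ Ico 2 (n - 1)) : ej n 2 ≤ ej n j := by
  rw [mem_Ico] at hj
  have h5 : (5 : ℝ) ≤ n := by exact_mod_cast hn
  have hn0 : (0 : ℝ) < n := by linarith
  have hpi := pi_pos
  unfold ej
  have hj2 : (2 : ℝ) ≤ j := by exact_mod_cast hj.1
  have hjn : (j : ℝ) + 2 ≤ n := by
    have : j + 2 ≤ n := by omega
    exact_mod_cast this
  suffices h : cos (j * (2 * π / n)) ≤ cos ((2 : ℕ) * (2 * π / n)) by linarith
  push_cast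
  rcases le_total ((j : ℝ) * (2 * π / n)) π with h | h
  · apply cos_le_cos_of_nonneg_of_le_pi (by positivity) h
    gcongr
  · have h1 : cos ((j : ℝ) * (2 * π / n)) = cos (((n : ℝ) - j) * (2 * π / n)) := by
      rw [sub_mul, mul_div_cancel₀ _ hn0.ne', cos_two_pi_sub]
    rw [h1]
    apply cos_le_cos_of_nonneg_of_le_pi (by positivity)
    · rw [sub_mul, mul_div_cancel₀ _ hn0.ne']
      linarith
    · have : 0 ≤ 2 * π / n := by positivity
      nlinarith

lemma a_lt_ej_two : 1 - cos (2 * π / n) < ej n 2 := by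
  rw [ej_two hn]
  have h1 := cos_ge hn
  have h2 := cos_lt_one hn
  nlinarith

lemma wf_nonneg {e : ℝ} (he : 0 ≤ e) (he2 : e < ej n 2) : 0 ≤ wf n e := by
  apply sum_nonneg
  intro j hj
  have := ej_ge hn hj
  apply div_nonneg he (by linarith)

lemma wf_le_of_le {e : ℝ} (he : 0 ≤ e) (hea : e ≤ 1 - cos (2 * π / n)) :
    wf n e ≤ e / (1 - cos (2 * π / n)) * wf n (1 - cos (2 * π / n)) := by
  have h2 := a_lt_ej_two hn
  have ha : 0 < 1 - cos (2 * π / n) := by linarith [cos_lt_one hn]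
  unfold wf
  rw [mul_sum]
  apply sum_le_sum
  intro j hj
  have hj2 := ej_ge hn hj
  have h3 : 0 < ej n j - (1 - cos (2 * π / n)) := by linarith
  have h4 : e / (1 - cos (2 * π / n)) * ((1 - cos (2 * π / n)) /
      (ej n j - (1 - cos (2 * π / n)))) = e / (ej n j - (1 - cos (2 * π / n))) := by
    field_simp
  rw [h4]
  apply div_le_div_of_nonneg_left he h3 (by linarith)

lemma le_wf_of_ge {e : ℝ} (hea : 1 - cos (2 * π / n) ≤ e) (he2 : e < ej n 2) :
    wf n (1 - cos (2 * π / n)) ≤ wf n e := by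
  have ha : 0 < 1 - cos (2 * π / n) := by linarith [cos_lt_one hn]
  apply sum_le_sum
  intro j hj
  have hj2 := ej_ge hn hj
  apply div_le_div₀ (by linarith) hea (by linarith) (by linarith)

lemma wf_le_of_ge {e : ℝ} (hea : 1 - cos (2 * π / n) ≤ e) (he2 : e < ej n 2) :
    wf n e * ((1 - cos (2 * π / n)) * (ej n 2 - e)) ≤
      e * (ej n 2 - (1 - cos (2 * π / n))) * wf n (1 - cos (2 * π / n)) := by
  have ha : 0 < 1 - cos (2 * π / n) := by linarith [cos_lt_one hn]
  have h2 := a_lt_ej_two hn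
  unfold wf
  rw [mul_sum, sum_mul]
  apply sum_le_sum
  intro j hj
  have hj2 := ej_ge hn hj
  set a := 1 - cos (2 * π / n) with hadef
  have h3 : 0 < ej n j - e := by linarith
  have h4 : 0 < ej n j - a := by linarith
  rw [div_mul_eq_mul_div, div_le_iff₀ h3]
  have h5 : e * (ej n 2 - a) * (a / (ej n j - a)) * (ej n j - e) =
      e * a * ((ej n 2 - a) * (ej n j - e)) / (ej n j - a) := by
    field_simp
  rw [h5, le_div_iff₀ h4]
  have h6 : (ej n 2 - e) * (ej n j - a) ≤ (ej n 2 - a) * (ej n j - e) := by nlinarith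
  have h7 : 0 ≤ e * a := by
    apply mul_nonneg (by linarith) ha.le
  calc e * (a * (ej n 2 - e)) * (ej n j - a) = e * a * ((ej n 2 - e) * (ej n j - a)) := by ring
    _ ≤ _ := by gcongr

lemma hasDerivAt_wf {e : ℝ} (he2 : e < ej n 2) : HasDerivAt (wf n) (wd n e) e := by
  unfold wf wd
  have h : ∀ j ∈ Ico 2 (n - 1), HasDerivAt (fun e => e / (ej n j - e))
      (ej n j / (ej n j - e) ^ 2) e := by
    intro j hj
    have hj2 := ej_ge hn hj
    have h3 : ej n j - e ≠ 0 := by
      have : 0 < ej n j - e := by linarith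
      exact this.ne'
    have h4 := (hasDerivAt_id e).div ((hasDerivAt_id e).const_sub (ej n j)) h3
    refine h4.congr_deriv ?_
    simp only [id]
    congr 1
    ring
  exact HasDerivAt.fun_sum h

lemma wd_nonneg (e : ℝ) : 0 ≤ wd n e := by
  apply sum_nonneg
  intro j hj
  have hj2 := ej_ge hn hj
  have h2 := a_lt_ej_two hn
  have ha : 0 < 1 - cos (2 * π / n) := by linarith [cos_lt_one hn]
  apply div_nonneg (by linarith) (by positivity)

/-- telescoping sum -/
lemma wf_a : wf n (1 - cos (2 * π / n)) = (1 + 2 * cos (2 * π / n)) / (1 + cos (2 * π / n)) := by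
  have hn0 := npos hn
  have h5 : (5 : ℝ) ≤ n := by exact_mod_cast hn
  have hpi := pi_pos
  set θ := π / n with hθ
  have hφ : 2 * π / n = 2 * θ := by rw [hθ]; ring
  have hθ0 : 0 < θ := by positivity
  have hnθ : (n : ℝ) * θ = π := by rw [hθ]; field_simp
  have hsin : ∀ k : ℕ, 1 ≤ k → k < n → 0 < sin (k * θ) := by
    intro k h1 h2
    apply sin_pos_of_pos_of_lt_pi
    · have : (1 : ℝ) ≤ k := by exact_mod_cast h1
      positivity
    · rw [← hnθ]
      have : (k : ℝ) < n := by exact_mod_cast h2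
      gcongr
  set f : ℕ → ℝ := fun k => cos (k * θ) / sin (k * θ) with hf
  set c := cos (2 * θ) with hc
  have hs2 : 0 < sin (2 * θ) := by
    have := hsin 2 (by norm_num) (by omega)
    exact_mod_cast this
  have hcge : (3 : ℝ) / 10 < c := by
    have := cos_ge hn
    rwa [hφ] at this
  have hclt : c < 1 := by
    have := cos_lt_one hn
    rwa [hφ] at this
  have hterm : ∀ i ∈ range (n - 1 - 2), (1 - c) / (ej n (2 + i) - (1 - c)) =
      (1 - c) / (2 * sin (2 * θ)) * ((f (i + 1) + f (i + 2)) - (f (i + 1 + 1) + f (i + 1 + 2))) := by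
    intro i hi
    rw [mem_range] at hi
    have s1 := hsin (i + 1) (by omega) (by omega)
    have s3 := hsin (i + 3) (by omega) (by omega)
    have e1 : ej n (2 + i) - (1 - c) = 2 * (sin ((i + 1 : ℕ) * θ) * sin ((i + 3 : ℕ) * θ)) := by
      unfold ej
      rw [hφ, hc]
      have h1 : ((2 + i : ℕ) : ℝ) * (2 * θ) = (i + 3 : ℕ) * θ + (i + 1 : ℕ) * θ := by
        push_cast
        ring
      have h2 : 2 * θ = (i + 3 : ℕ) * θ - (i + 1 : ℕ) * θ := by
        push_cast
        ring
      rw [h1]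
      conv_lhs => rw [h2]
      rw [cos_add, cos_sub]
      ring
    have e2 : (f (i + 1) + f (i + 2)) - (f (i + 1 + 1) + f (i + 1 + 2)) =
        sin (2 * θ) / (sin ((i + 1 : ℕ) * θ) * sin ((i + 3 : ℕ) * θ)) := by
      have h2 : 2 * θ = (i + 3 : ℕ) * θ - (i + 1 : ℕ) * θ := by
        push_cast
        ring
      have h3 : f (i + 1) - f (i + 3) =
        sin (2 * θ) / (sin ((i + 1 : ℕ) * θ) * sin ((i + 3 : ℕ) * θ)) := by
        rw [hf]
        simp only
        rw [h2, sin_sub, div_sub_div _ _ s1.ne' s3.ne']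
        congr 1
        ring
      rw [← h3]
      ring_nf
    rw [e1, e2]
    field_simp
  unfold wf
  rw [hφ, ← hc, sum_Ico_eq_sum_range, sum_congr rfl hterm, ← mul_sum,
    Finset.sum_range_sub' (fun i => f (i + 1) + f (i + 2))]
  have hcast1 : ((n - 1 - 2 + 1 : ℕ) : ℝ) * θ = π - 2 * θ := by
    have : n - 1 - 2 + 1 = n - 2 := by omega
    rw [this, Nat.cast_sub (by omega), sub_mul, hnθ]
    norm_num
  have hcast2 : ((n - 1 - 2 + 2 : ℕ) : ℝ) * θ = π - θ := by
    have : n - 1 - 2 + 2 = n - 1 := by omega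
    rw [this, Nat.cast_sub (by omega), sub_mul, hnθ]
    norm_num
  have f1 : f (n - 1 - 2 + 1) = - f 2 := by
    rw [hf]
    simp only
    rw [hcast1, cos_pi_sub, sin_pi_sub]
    push_cast
    ring
  have f2 : f (n - 1 - 2 + 2) = - f 1 := by
    rw [hf]
    simp only
    rw [hcast2, cos_pi_sub, sin_pi_sub]
    push_cast
    ring_nf
  rw [f1, f2]
  have hsθ : 0 < sin θ := by
    have := hsin 1 le_rfl (by omega)
    simpa using this
  have g1 : f 1 = (1 + c) / sin (2 * θ) := by
    rw [hf]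
    simp only
    rw [hc, sin_two_mul, cos_two_mul]
    push_cast
    rw [one_mul]
    have hcθ : cos θ ≠ 0 := by
      intro h0
      rw [sin_two_mul, h0, mul_zero] at hs2
      exact lt_irrefl _ hs2
    field_simp
    ring
  have g2 : f 2 = c / sin (2 * θ) := by
    rw [hf]
    simp only
    push_cast
    rw [hc]
  simp only [zero_add]
  rw [g1, g2]
  have hs2' : sin (2 * θ) ^ 2 = (1 - c) * (1 + c) := by
    have := sin_sq_add_cos_sq (2 * θ)
    rw [hc]
    linarith
  have h1c : 1 + c ≠ 0 := by linarith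
  have h1c' : 1 - c ≠ 0 := by linarith
  have h7 : (1 - c) / (2 * sin (2 * θ)) * ((1 + c) / sin (2 * θ) + c / sin (2 * θ) -
      (-(c / sin (2 * θ)) + -((1 + c) / sin (2 * θ)))) =
      (1 - c) * (1 + 2 * c) / sin (2 * θ) ^ 2 := by
    field_simp
    ring
  rw [h7, hs2']
  field_simp

lemma wd_le {e : ℝ} (hea : e ≤ 1 - cos (2 * π / n)) : (1 - cos (2 * π / n)) * wd n e ≤ 2 := by
  have hw := wf_a hn
  have h2 := a_lt_ej_two hn
  have he2 := ej_two hn
  have hc1 := cos_ge hn
  have hc2 := cos_lt_one hn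
  have key : (1 - cos (2 * π / n)) * wd n e ≤
      ej n 2 / (ej n 2 - (1 - cos (2 * π / n))) * wf n (1 - cos (2 * π / n)) := by
    unfold wd wf
    rw [mul_sum, mul_sum]
    apply sum_le_sum
    intro j hj
    have hj2 := ej_ge hn hj
    set a := 1 - cos (2 * π / n) with hadef
    have ha : 0 < a := by rw [hadef]; linarith
    have h3 : 0 < ej n j - e := by linarith
    have h4 : 0 < ej n j - a := by linarith
    have h5 : 0 < ej n 2 - a := by linarith
    have h6 : ej n j / (ej n j - e) ^ 2 ≤ ej n j / (ej n j - a) ^ 2 := by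
      apply div_le_div_of_nonneg_left (by linarith) (by positivity)
      gcongr
    have h7 : ej n j / (ej n j - a) ≤ ej n 2 / (ej n 2 - a) := by
      rw [div_le_div_iff₀ h4 h5]
      nlinarith
    calc a * (ej n j / (ej n j - e) ^ 2) ≤ a * (ej n j / (ej n j - a) ^ 2) := by gcongr
      _ = (ej n j / (ej n j - a)) * (a / (ej n j - a)) := by
          field_simp
      _ ≤ _ := by
          gcongr
  refine key.trans (le_of_eq ?_)
  rw [hw, he2]
  have h1 : (1 : ℝ) + cos (2 * π / n) ≠ 0 := by linarith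
  have h3 : (1 : ℝ) + 2 * cos (2 * π / n) ≠ 0 := by linarith
  have h4 : 1 - cos (2 * π / n) ≠ 0 := by linarith
  have h5 : 2 * (1 - cos (2 * π / n)) * (1 + cos (2 * π / n)) - (1 - cos (2 * π / n)) =
      (1 - cos (2 * π / n)) * (1 + 2 * cos (2 * π / n)) := by ring
  rw [h5]
  field_simp

end

end Pool.Agent.H25.KP
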